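import Pool.Agent.V5helper67.EB.Charge

open Finset

namespace Pool.Agent.V5helper67.EB

open Pool.Agent.Helper120.EaModel Pool.Agent.V5helper67.EA

variable {V E : Type} {G : WGraph V E}

theorem reach_erase [DecidableEq E] {x : Finset E} {a : E} {u v : V}
    (p : (G.subgraph x).Walk u v) (hp : G.ends a ∉ p.edges) :
    (G.subgraph (x.erase a)).Reachable u v := by
  induction p with
  | nil => exact SimpleGraph.Reachable.refl _
  | @cons u w v hadj p ih =>
    rw [SimpleGraph.Walk.edges_cons, List.mem_cons, not_or] at hp
    refine SimpleGraph.Reachable.trans ?_ (ih hp.2)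
    rw [sg_adj] at hadj
    obtain ⟨e, he, he'⟩ := hadj
    have hea : e ≠ a := by
      intro h
      apply hp.1
      rw [← he', h]
    exact reach_of_mem (mem_erase.2 ⟨hea, he⟩) he'

open Classical in
theorem swaps_le [Finite V] [Fintype E] [DecidableEq E] {c : ℕ}
    (hc : ∀ (v : V) (p : (G.subgraph Finset.univ).Walk v v), p.IsCycle → p.length ≤ c)
    {x : Finset E} (hx : G.IsSpanningTree x) {b : E} (hb : b ∉ x) :
    (x.filter fun a => G.IsSpanningTree (insert b (x.erase a))).card ≤ c := by
  obtain ⟨u, v, huv⟩ : ∃ u v, G.ends b = s(u, v) := by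
    induction h : G.ends b with
    | _ u v => exact ⟨u, v, rfl⟩
  have hx' := (tree_iff G).1 hx
  obtain ⟨p, hp⟩ := (hx'.1.preconnected v u).exists_isPath
  have h1 : ∀ a ∈ x.filter (fun a => G.IsSpanningTree (insert b (x.erase a))),
      G.ends a ∈ p.edges := by
    intro a ha
    rw [mem_filter] at ha
    by_contra hcon
    have hr := reach_erase p hcon
    have hy := (tree_iff G).1 ha.2
    have hconn : (G.subgraph (x.erase a)).Connected := by
      have := hx'.1.nonempty
      constructor
      intro s t
      refine reach_of (A := insert b (x.erase a)) ?_ (hy.1.preconnected s t)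
      intro e he s t hst
      rw [mem_insert] at he
      rcases he with he | he
      · rw [he, huv, Sym2.eq_iff] at hst
        rcases hst with ⟨h2, h3⟩ | ⟨h2, h3⟩
        · rw [← h2, ← h3]; exact hr.symm
        · rw [← h2, ← h3]; exact hr
      · exact reach_of_mem he hst
    have h2 := conn_card G hconn
    rw [card_erase_of_mem ha.1] at h2
    have h3 : 0 < x.card := card_pos.2 ⟨a, ha.1⟩
    omega
  have h2 : (x.filter fun a => G.IsSpanningTree (insert b (x.erase a))).card ≤ p.length := by
    rw [← p.length_edges]
    refine le_trans ?_ (List.toFinset_card_le p.edges)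
    refine card_le_card_of_injOn G.ends ?_ (fun _ _ _ _ h => G.ends_injective h)
    intro a ha
    rw [mem_coe, List.mem_toFinset]
    exact h1 a (by exact_mod_cast ha)
  have hle : G.subgraph x ≤ G.subgraph Finset.univ := sg_mono G (subset_univ x)
  have hadj : (G.subgraph Finset.univ).Adj u v := by
    rw [sg_adj]
    exact ⟨b, mem_univ b, huv⟩
  have hcyc : (SimpleGraph.Walk.cons hadj (p.mapLe hle)).IsCycle := by
    rw [SimpleGraph.Walk.cons_isCycle_iff]
    refine ⟨hp.mapLe hle, ?_⟩
    rw [SimpleGraph.Walk.edges_mapLe_eq_edges]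
    intro hmem
    have h3 := p.edges_subset_edgeSet hmem
    rw [sg_edgeSet] at h3
    obtain ⟨e, he, he'⟩ := h3
    rw [← huv] at he'
    exact hb (G.ends_injective he' ▸ (by exact_mod_cast he))
  have h4 := hc u _ hcyc
  rw [SimpleGraph.Walk.length_cons] at h4
  have h5 : (p.mapLe hle).length = p.length := by
    rw [← SimpleGraph.Walk.length_edges, SimpleGraph.Walk.edges_mapLe_eq_edges,
      SimpleGraph.Walk.length_edges]
  omega

open Classical in
theorem BP_le [Finite V] [Fintype E] [DecidableEq E] {c : ℕ}
    (hc : ∀ (v : V) (p : (G.subgraph Finset.univ).Walk v v), p.IsCycle → p.length ≤ c)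
    {x : Finset E} (hx : G.IsSpanningTree x) :
    (BP G x).card ≤ Fintype.card E * c := by
  have h1 : (BP G x).card ≤ c * ((BP G x).image fun q => q.2).card := by
    apply card_le_mul_card_image
    intro b hb
    rw [mem_image] at hb
    obtain ⟨q, hq, rfl⟩ := hb
    have hb := (mem_BP.1 hq).2.1
    refine le_trans ?_ (swaps_le hc hx hb)
    refine card_le_card_of_injOn (fun q => q.1) ?_ ?_
    · intro z hz
      rw [mem_coe, mem_filter, mem_BP] at hz
      rw [mem_coe, mem_filter]
      refine ⟨hz.1.1, ?_⟩
      have := hz.1.2.2.2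
      rw [hz.2] at this
      exact this
    · intro z hz z' hz' h
      rw [mem_coe, mem_filter] at hz hz'
      exact Prod.ext h (hz.2.trans hz'.2.symm)
  refine h1.trans ?_
  rw [mul_comm]
  exact Nat.mul_le_mul_right _ (card_le_univ _)

end Pool.Agent.V5helper67.EB
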