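import Pool.Agent.V5helper67.EAL.Param

/-!
# Lower bound for instances with bounded weights
-/

open Finset
open scoped ENNReal

namespace Pool.Agent.V5helper67.EB

open Pool.Agent.Helper120.EaModel Pool.Agent.Helper120.EaJ4 Pool.Agent.V5helper67.EA
  Pool.Agent.V5helper67.EAL Pool.Agent.V5helper67.EAL.Pm

theorem lw_le {Q : Pm} (e : Q.Ex) : lw e ≤ 3 * Q.g := by
  rcases e with (⟨j, ⟨l, t⟩⟩ | d) | ⟨j, ⟨i, k⟩⟩
  · have h : lw (Q := Q) (Sum.inl (Sum.inl (j, ⟨l, t⟩))) = l.val := rfl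
    rw [h]
    have := l.isLt
    omega
  · have h : lw (Q := Q) (Sum.inl (Sum.inr d)) = 0 := rfl
    rw [h]
    omega
  · have h : lw (Q := Q) (Sum.inr (j, ⟨i, k⟩)) = 3 * Q.g - i.val := rfl
    rw [h]
    omega

theorem sm_le {Q : Pm} (e : Q.Ex) : sm e ≤ (3 * Q.g) ^ Q.L := by
  have hg : 0 < 3 * Q.g := by have := Q.hg; omega
  unfold sm
  cases h : bl e with
  | none => exact Nat.zero_le _
  | some j =>
    show (3 * Q.g) ^ (Q.L - 1 - j.val) * lw e ≤ _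
    have hj := j.isLt
    calc (3 * Q.g) ^ (Q.L - 1 - j.val) * lw e ≤ (3 * Q.g) ^ (Q.L - 1 - j.val) * (3 * Q.g) :=
          Nat.mul_le_mul_left _ (lw_le e)
      _ = (3 * Q.g) ^ (Q.L - 1 - j.val + 1) := (pow_succ _ _).symm
      _ ≤ (3 * Q.g) ^ Q.L := Nat.pow_le_pow_right hg (by omega)

theorem weight_le (Q : Pm) (e : Q.Ex) :
    (GG Q).weight e ≤ 2 + (Fintype.card Q.Ex + 1) * (3 * Q.g) ^ Q.L := by
  have hW : W0 Q ≤ 2 + Fintype.card Q.Ex * (3 * Q.g) ^ Q.L := by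
    unfold W0
    have h1 : ∑ e : Q.Ex, sm e ≤ Fintype.card Q.Ex * (3 * Q.g) ^ Q.L := by
      rw [← smul_eq_mul, ← card_univ]
      exact sum_le_card_nsmul _ _ _ fun e _ => sm_le e
    omega
  show wt e ≤ _
  have h2 := sm_le e
  have h3 : (Fintype.card Q.Ex + 1) * (3 * Q.g) ^ Q.L =
      Fintype.card Q.Ex * (3 * Q.g) ^ Q.L + (3 * Q.g) ^ Q.L := by ring
  unfold wt
  split_ifs
  · omega
  · omega

theorem core3 {m n N ℓ L : ℕ} (hn : 10 ≤ n) (hℓ : 22 ≤ ℓ) (hL : 0 < L) (hNn : ℓ * n ^ 2 ≤ N)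
    (hLN : L * (6 * N) ≤ m)
    (hlog : 5 * Real.log m + 2 ≤ ℓ) (hn5 : 32 * (ℓ : ℝ) ^ 2 * (m : ℝ) ^ 2 ≤ n * (N : ℝ) ^ 2) :
    ∃ (Q : Pm) (x0 : Finset Q.Ex), (GG Q).IsSpanningTree x0 ∧ Fintype.card Q.Ex = m ∧
      Q.L = L ∧ Q.g = ℓ * n ∧
      ENNReal.ofReal (L * (m : ℝ) ^ 2 / (42 * ℓ)) ≤ (GG Q).expectedRuntime x0 := by
  classical
  have hgn : 2 ≤ ℓ * n := by nlinarith
  have hN1 : 1 ≤ N := le_trans (Nat.one_le_iff_ne_zero.2 (by positivity)) hNn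
  have hLm : L * (6 * ℓ * n ^ 2) ≤ m := by
    refine le_trans (Nat.mul_le_mul_left _ ?_) hLN
    rw [mul_assoc]
    exact Nat.mul_le_mul_left _ hNn
  obtain ⟨Q0, hQ0⟩ : ∃ Q0 : Pm, Q0 = ⟨L, ℓ * n, n, N, 0, hgn, by omega, hN1⟩ := ⟨_, rfl⟩
  obtain ⟨Q, hQ⟩ : ∃ Q : Pm, Q = ⟨L, ℓ * n, n, N,
    m - (L * ∑ l : Fin (ℓ * n), Q0.sl l.val + 2 * (L * ∑ i : Fin (ℓ * n), Q0.rm i.val)),
    hgn, by omega, hN1⟩ := ⟨_, rfl⟩
  have qL : Q.L = L := by rw [hQ]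
  have qg : Q.g = ℓ * n := by rw [hQ]
  have qn : Q.n = n := by rw [hQ]
  have qN : Q.N = N := by rw [hQ]
  have hcard : Fintype.card Q.Ex = m := by
    rw [card_Ex]
    have h1 := sum_sl Q0
    have h2 := sum_rm Q0
    have e1 : Q0.N + Q0.g * Q0.n ≤ 2 * N := by
      rw [hQ0]
      simp only
      have : ℓ * n * n = ℓ * n ^ 2 := by ring
      omega
    replace h1 := h1.trans e1
    replace h2 := h2.trans e1
    have h3 : ∑ l : Fin (ℓ * n), Q0.sl l.val ≤ 2 * N := by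
      rw [hQ0] at h1 ⊢
      exact h1
    have h4 : ∑ l : Fin (ℓ * n), Q0.rm l.val ≤ 2 * N := by
      rw [hQ0] at h2 ⊢
      exact h2
    have e2 : ∑ l : Fin Q.g, Q.sl l.val = ∑ l : Fin (ℓ * n), Q0.sl l.val := by
      rw [hQ, hQ0]
      rfl
    have e3 : ∑ l : Fin Q.g, Q.rm l.val = ∑ l : Fin (ℓ * n), Q0.rm l.val := by
      rw [hQ, hQ0]
      rfl
    have e4 : Q.P = m - (L * ∑ l : Fin (ℓ * n), Q0.sl l.val +
        2 * (L * ∑ i : Fin (ℓ * n), Q0.rm i.val)) := by rw [hQ]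
    rw [e2, e3, e4, qL]
    have h5 : L * ∑ l : Fin (ℓ * n), Q0.sl l.val ≤ L * (2 * N) :=
      Nat.mul_le_mul_left _ h3
    have h6 : L * ∑ l : Fin (ℓ * n), Q0.rm l.val ≤ L * (2 * N) :=
      Nat.mul_le_mul_left _ h4
    have h7 : L * (6 * N) = 3 * (L * (2 * N)) := by ring
    omega
  -- real versions
  obtain ⟨M, hM⟩ : ∃ M : ℝ, M = m := ⟨_, rfl⟩
  obtain ⟨a, ha⟩ : ∃ a : ℝ, a = n := ⟨_, rfl⟩
  obtain ⟨l, hl⟩ : ∃ l : ℝ, l = ℓ := ⟨_, rfl⟩
  obtain ⟨A, hA⟩ : ∃ A : ℝ, A = N := ⟨_, rfl⟩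
  obtain ⟨b, hb⟩ : ∃ b : ℝ, b = L := ⟨_, rfl⟩
  have ha10 : 10 ≤ a := by rw [ha]; exact_mod_cast hn
  have hl22 : 22 ≤ l := by rw [hl]; exact_mod_cast hℓ
  have hb1 : 1 ≤ b := by rw [hb]; exact_mod_cast hL
  have hbm : b * (6 * l * a ^ 2) ≤ M := by
    rw [hb, hl, ha, hM]
    exact_mod_cast hLm
  rw [← hM] at hlog hn5 ⊢
  rw [← hl] at hlog ⊢
  rw [← ha, ← hl, ← hA] at hn5
  rw [← hb]
  have hM1 : 1000 ≤ M := by
    have h1 : 100 ≤ a ^ 2 := by nlinarith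
    have h2 : 6 * 22 * 100 ≤ 6 * l * a ^ 2 := by nlinarith
    nlinarith
  have hlM : 6 * l * a ^ 2 ≤ M := by nlinarith [sq_nonneg a]
  have hbM : b ≤ M := by
    have h1 : 100 ≤ a ^ 2 := by nlinarith
    have : 1 ≤ 6 * l * a ^ 2 := by nlinarith
    nlinarith
  have hM0 : 0 < M := by linarith
  have ha0 : 0 < a := by linarith
  -- the small number
  obtain ⟨τ, hτ⟩ : ∃ τ : ℝ, τ = 2 * (1 - 1 / (Q.n : ℝ)) ^ (Q.g - 2 - Q.n) := ⟨_, rfl⟩
  have hτle : τ ≤ 2 / M ^ 5 := by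
    rw [hτ, qn, qg, ← ha]
    have h1 : 1 - 1 / a ≤ Real.exp (-(1 / a)) := by
      have := Real.add_one_le_exp (-(1 / a))
      linarith
    have h0 : 0 ≤ 1 - 1 / a := by
      have : 1 / a ≤ 1 := by rw [div_le_one ha0]; linarith
      linarith
    have h2 : (1 - 1 / a) ^ (ℓ * n - 2 - n) ≤ Real.exp (-(1 / a)) ^ (ℓ * n - 2 - n) :=
      pow_le_pow_left₀ h0 h1 _
    rw [← Real.exp_nat_mul] at h2
    have h3 : ((ℓ * n - 2 - n : ℕ) : ℝ) = l * a - 2 - a := by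
      have h4 : 2 ≤ ℓ * n := by nlinarith
      have h5 : n ≤ ℓ * n - 2 := by
        have : 22 * n ≤ ℓ * n := Nat.mul_le_mul_right _ hℓ
        omega
      rw [Nat.cast_sub h5, Nat.cast_sub h4]
      push_cast
      rw [hl, ha]
    rw [h3] at h2
    have h4 : (l * a - 2 - a) * -(1 / a) ≤ -(5 * Real.log M) := by
      have h5 : (l * a - 2 - a) * -(1 / a) = -(l - 1 - 2 / a) := by
        field_simp
        ring
      rw [h5]
      have h6 : 2 / a ≤ 1 := by rw [div_le_one ha0]; linarith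
      linarith
    have h5 : Real.exp (-(5 * Real.log M)) = 1 / M ^ 5 := by
      rw [Real.exp_neg, one_div]
      congr 1
      have : (5 : ℝ) * Real.log M = ((5 : ℕ) : ℝ) * Real.log M := by norm_num
      rw [this, Real.exp_nat_mul, Real.exp_log hM0]
    have h6 := h2.trans (Real.exp_le_exp.2 h4)
    rw [h5] at h6
    calc 2 * (1 - 1 / a) ^ (ℓ * n - 2 - n) ≤ 2 * (1 / M ^ 5) := by linarith
      _ = 2 / M ^ 5 := by ring
  have hτ0 : 0 ≤ τ := by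
    rw [hτ, qn, ← ha]
    have h0 : 0 ≤ 1 - 1 / a := by
      have : 1 / a ≤ 1 := by rw [div_le_one ha0]; linarith
      linarith
    positivity
  have hM5 : 1000 ≤ M ^ 5 := by
    have : M ≤ M ^ 5 := by
      calc M = M * 1 := by ring
        _ ≤ M * M ^ 4 := mul_le_mul_of_nonneg_left (one_le_pow₀ (by linarith)) hM0.le
        _ = M ^ 5 := by ring
    linarith
  have hadm := uu_adm (Q := Q) (by rw [qn]; exact hn) (by
    rw [qn, qg]
    have : 22 * n ≤ ℓ * n := Nat.mul_le_mul_right _ hℓ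
    omega) (by
    rw [← hτ]
    refine hτle.trans ?_
    rw [div_le_iff₀ (by positivity)]
    linarith)
  rw [← hτ] at hadm
  obtain ⟨K, hK⟩ : ∃ K : ℝ, K = 4 + 2 * (1 / (Q.n : ℝ)) * (Q.n + Q.g) := ⟨_, rfl⟩
  have hK2 : K = 2 * l + 6 := by
    rw [hK, qn, qg]
    push_cast
    rw [← ha, ← hl]
    field_simp
    ring
  obtain ⟨ε, hε⟩ : ∃ ε : ℝ, ε = Q.L * (2 * τ * (Q.n + Q.g)) := ⟨_, rfl⟩
  have hLε : Q.L * ε ≤ 1 := by
    rw [hε, qL, qn, qg]
    push_cast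
    rw [← ha, ← hl, ← hb]
    have h1 : a + l * a ≤ M := by nlinarith
    have h2 : b * (b * (2 * τ * (a + l * a))) ≤ M * (M * (2 * (2 / M ^ 5) * M)) := by
      have h3 : 2 * τ * (a + l * a) ≤ 2 * (2 / M ^ 5) * M := by
        apply mul_le_mul _ h1 (by positivity) (by positivity)
        linarith
      have h4 : b * (2 * τ * (a + l * a)) ≤ M * (2 * (2 / M ^ 5) * M) :=
        mul_le_mul hbM h3 (by positivity) hM0.le
      exact mul_le_mul hbM h4 (by positivity) hM0.le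
    refine h2.trans ?_
    have h3 : M * (M * (2 * (2 / M ^ 5) * M)) = 4 / M ^ 2 := by
      field_simp
      ring
    rw [h3, div_le_one (by positivity)]
    nlinarith
  have hres := lower (Q := Q) (by
      rw [hcard]
      have : (1000 : ℝ) ≤ m := by rw [← hM]; exact hM1
      have h2 : 1000 ≤ m := by exact_mod_cast this
      omega) hadm hK hε rfl hLε (by
      rw [hcard, qL]
      have : (L : ℝ) ≤ m := by rw [← hM, ← hb]; exact hbM
      exact_mod_cast this) (by rw [qL]; exact hL)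
    (by
      rw [hcard, qL, ← hM, ← hb, hK2, one_div, inv_pow, ← div_eq_mul_inv,
        div_le_one (by positivity)]
      have h1 : 2 * (2 * l + 6) * b ≤ M := by
        have h3 : 100 ≤ a ^ 2 := by nlinarith
        have h4 : 6 * l * 100 ≤ 6 * l * a ^ 2 := mul_le_mul_of_nonneg_left h3 (by linarith)
        have h2 : 2 * (2 * l + 6) ≤ 6 * l * a ^ 2 := by linarith
        have h5 : b * (2 * (2 * l + 6)) ≤ b * (6 * l * a ^ 2) :=
          mul_le_mul_of_nonneg_left h2 (by linarith)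
        linarith
      nlinarith)
    (by
      rw [hcard, qn, qN, ← hM]
      rw [← ha, ← hA, hK2, one_div, inv_pow, ← div_eq_mul_inv, le_div_iff₀ (by positivity)]
      have hlogM : 0 ≤ Real.log M := Real.log_nonneg (by linarith)
      have h1 : 12 * ((2 * l + 6) * (2 * Real.log M) + 1) ≤ 32 * l ^ 2 := by
        have h2 : Real.log M ≤ l / 5 := by linarith
        have h3 : (2 * l + 6) * (2 * Real.log M) ≤ (2 * l + 6) * (2 * (l / 5)) :=
          mul_le_mul_of_nonneg_left (by linarith) (by linarith)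
        nlinarith
      have h4 : a * A * A = a * A ^ 2 := by ring
      rw [h4]
      calc 12 * ((2 * l + 6) * (2 * Real.log M) + 1) * M ^ 2 ≤ 32 * l ^ 2 * M ^ 2 :=
            mul_le_mul_of_nonneg_right h1 (by positivity)
        _ ≤ a * A ^ 2 := hn5)
  obtain ⟨x0, hx0, hE⟩ := hres
  refine ⟨Q, x0, hx0, hcard, qL, qg, le_trans (ENNReal.ofReal_le_ofReal ?_) hE⟩
  rw [hcard, qL, ← hM, ← hb, hK2]
  have h1 : 8 * (2 * l + 6) + 2 ≤ 21 * l := by linarith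
  have h2 : b / 2 / ((8 * (2 * l + 6) + 2) * (1 / M) ^ 2) =
      b * M ^ 2 / (2 * (8 * (2 * l + 6) + 2)) := by
    field_simp
  rw [h2]
  apply div_le_div_of_nonneg_left (by positivity) (by positivity)
  linarith


/-- **The lower bound for instances with weights at most `W`.** -/
theorem final3 : ∃ m0 : ℕ, ∀ m : ℕ, m0 ≤ m → ∀ W : ℝ, (m : ℝ) ^ 6 ≤ W →
    W ≤ Real.exp ((m : ℝ) ^ (1 / 5 : ℝ) / 400) →
    ∃ (Q : Pm) (x0 : Finset Q.Ex), (GG Q).IsSpanningTree x0 ∧ Fintype.card Q.Ex = m ∧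
      (∀ e, ((GG Q).weight e : ℝ) ≤ W) ∧
      ENNReal.ofReal ((m : ℝ) ^ 2 * Real.log W / (600 * Real.log m ^ 2)) ≤
        (GG Q).expectedRuntime x0 := by
  have h3 : ∀ᶠ x : ℝ in Filter.atTop, 4 ≤ Real.log x :=
    Real.tendsto_log_atTop.eventually (Filter.eventually_ge_atTop 4)
  obtain ⟨m0, hm0⟩ := Filter.eventually_atTop.1
    (tendsto_natCast_atTop_atTop.eventually (h3.and (Filter.eventually_ge_atTop (10 ^ 5 : ℝ))))
  refine ⟨m0, fun m hm W hW1 hW2 => ?_⟩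
  obtain ⟨c2, c3⟩ := hm0 m hm
  obtain ⟨M, hM⟩ : ∃ M : ℝ, M = m := ⟨_, rfl⟩
  rw [← hM] at c2 c3 hW1 hW2 ⊢
  obtain ⟨y, hy⟩ : ∃ y : ℝ, y = M ^ (1 / 5 : ℝ) := ⟨_, rfl⟩
  rw [← hy] at hW2
  obtain ⟨lg, hlg⟩ : ∃ lg : ℝ, lg = Real.log M := ⟨_, rfl⟩
  rw [← hlg] at c2 ⊢
  have hM0 : 0 < M := by linarith
  have hlg0 : 0 < lg := by linarith
  have hW0 : 0 < W := lt_of_lt_of_le (by positivity) hW1
  have hy5 : y ^ 5 = M := by
    rw [hy, ← Real.rpow_natCast, ← Real.rpow_mul hM0.le]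
    norm_num
  have hy0 : 0 < y := by rw [hy]; exact Real.rpow_pos_of_pos hM0 _
  have hy10 : 10 ≤ y := by
    by_contra hcon
    push Not at hcon
    have h1 : y ^ 5 < 10 ^ 5 := pow_lt_pow_left₀ hcon hy0.le (by norm_num)
    rw [hy5] at h1
    linarith
  -- the ratio of the logarithms
  obtain ⟨lW, hlW⟩ : ∃ lW : ℝ, lW = Real.log W := ⟨_, rfl⟩
  rw [← hlW]
  have hlW1 : 6 * lg ≤ lW := by
    rw [hlW, hlg]
    have h1 := Real.log_le_log (by positivity) hW1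
    rw [Real.log_pow] at h1
    push_cast at h1
    exact h1
  have hlW2 : lW ≤ y / 400 := by
    rw [hlW]
    have h1 := Real.log_le_log hW0 hW2
    rwa [Real.log_exp] at h1
  obtain ⟨x, hx⟩ : ∃ x : ℝ, x = lW / lg := ⟨_, rfl⟩
  have hx6 : 6 ≤ x := by rw [hx, le_div_iff₀ hlg0]; exact hlW1
  have hxl : x * lg = lW := by rw [hx]; field_simp
  obtain ⟨L, hL⟩ : ∃ L : ℕ, L = ⌊x⌋₊ - 2 := ⟨_, rfl⟩
  have hf6 : 6 ≤ ⌊x⌋₊ := Nat.le_floor (by exact_mod_cast hx6)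
  have hLf : L + 2 = ⌊x⌋₊ := by omega
  have hL1 : 0 < L := by omega
  have hLx : (L : ℝ) + 2 ≤ x := by
    have h1 := Nat.floor_le (show 0 ≤ x by linarith)
    rw [← hLf] at h1
    push_cast at h1
    exact h1
  have hLx2 : x / 2 ≤ L := by
    have h1 := Nat.lt_floor_add_one x
    rw [← hLf] at h1
    push_cast at h1
    linarith
  have hL0 : (0 : ℝ) < L := by exact_mod_cast hL1
  obtain ⟨n, hn⟩ : ∃ n : ℕ, n = ⌈2 * y ^ 2⌉₊ := ⟨_, rfl⟩
  obtain ⟨ℓ, hℓ⟩ : ∃ ℓ : ℕ, ℓ = ⌈5 * lg + 2⌉₊ := ⟨_, rfl⟩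
  have hn1 : 2 * y ^ 2 ≤ n := by rw [hn]; exact Nat.le_ceil _
  have hn2 : (n : ℝ) ≤ 3 * y ^ 2 := by
    have := Nat.ceil_lt_add_one (show 0 ≤ 2 * y ^ 2 by positivity)
    rw [← hn] at this
    nlinarith
  have hℓ1 : 5 * lg + 2 ≤ ℓ := by rw [hℓ]; exact Nat.le_ceil _
  have hℓ2 : (ℓ : ℝ) ≤ 6 * lg := by
    have := Nat.ceil_lt_add_one (show 0 ≤ 5 * lg + 2 by linarith)
    rw [← hℓ] at this
    linarith
  have hn0 : (0 : ℝ) < n := by nlinarith
  have hℓ0 : (0 : ℝ) < ℓ := by linarith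
  have hn10 : 10 ≤ n := by
    have : (10 : ℝ) ≤ n := by nlinarith
    exact_mod_cast this
  have hℓ22 : 22 ≤ ℓ := by
    have : (22 : ℝ) ≤ ℓ := by linarith
    exact_mod_cast this
  have hfit : (L : ℝ) * (6 * (ℓ * n ^ 2)) ≤ M := by
    have h4 : (n : ℝ) ^ 2 ≤ (3 * y ^ 2) ^ 2 := pow_le_pow_left₀ hn0.le hn2 2
    have h5 : (ℓ : ℝ) * n ^ 2 ≤ 6 * lg * (3 * y ^ 2) ^ 2 :=
      mul_le_mul hℓ2 h4 (by positivity) (by linarith)
    have h6 : (L : ℝ) * (6 * (ℓ * n ^ 2)) ≤ x * (6 * (6 * lg * (3 * y ^ 2) ^ 2)) :=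
      mul_le_mul (by linarith) (by linarith) (by positivity) (by linarith)
    have h7 : x * (6 * (6 * lg * (3 * y ^ 2) ^ 2)) = 324 * (x * lg) * y ^ 4 := by ring
    rw [h7, hxl] at h6
    have h8 : 324 * lW * y ^ 4 ≤ y * y ^ 4 :=
      mul_le_mul_of_nonneg_right (by linarith) (by positivity)
    have h9 : y * y ^ 4 = M := by rw [← hy5]; ring
    linarith
  obtain ⟨Q, x0, g1, g2, g4, g5, g3⟩ := core3 (m := m) hn10 hℓ22 hL1 (le_refl (ℓ * n ^ 2)) (by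
    rw [hM] at hfit
    exact_mod_cast hfit) (by rw [← hM, ← hlg]; exact hℓ1) (by
    rw [← hM]
    push_cast
    calc 32 * (ℓ : ℝ) ^ 2 * M ^ 2 = ℓ ^ 2 * (2 * y ^ 2) ^ 5 := by rw [← hy5]; ring
      _ ≤ ℓ ^ 2 * (n : ℝ) ^ 5 :=
          mul_le_mul_of_nonneg_left (pow_le_pow_left₀ (by positivity) hn1 5) (by positivity)
      _ = n * (ℓ * n ^ 2) ^ 2 := by ring)
  refine ⟨Q, x0, g1, g2, ?_, le_trans (ENNReal.ofReal_le_ofReal ?_) g3⟩
  · intro e
    have h1 := weight_le Q e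
    rw [g2, g4, g5] at h1
    have h2 : ((GG Q).weight e : ℝ) ≤ 2 + (M + 1) * (3 * (ℓ * n)) ^ L := by
      rw [hM]
      exact_mod_cast h1
    have h3 : 3 * ((ℓ : ℝ) * n) ≤ M := by
      have h4 : 3 * ((ℓ : ℝ) * n) ≤ 6 * (ℓ * n ^ 2) := by
        have h5 : (1 : ℝ) ≤ n := by
          have : (10 : ℝ) ≤ n := by exact_mod_cast hn10
          linarith
        have h6 : (ℓ : ℝ) * n * 1 ≤ ℓ * n * n := mul_le_mul_of_nonneg_left h5 (by positivity)
        have h7 : (0 : ℝ) ≤ ℓ * n := by positivity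
        nlinarith
      have h5 : 6 * ((ℓ : ℝ) * n ^ 2) ≤ L * (6 * (ℓ * n ^ 2)) := by
        apply le_mul_of_one_le_left (by positivity)
        exact_mod_cast hL1
      linarith
    have h4 : (3 * ((ℓ : ℝ) * n)) ^ L ≤ M ^ L := pow_le_pow_left₀ (by positivity) h3 L
    have h5 : (1 : ℝ) ≤ M ^ L := one_le_pow₀ (by linarith)
    have h6 : 2 + (M + 1) * (3 * ((ℓ : ℝ) * n)) ^ L ≤ M ^ (L + 2) := by
      have h7 : (M + 1) * (3 * ((ℓ : ℝ) * n)) ^ L ≤ (M + 1) * M ^ L :=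
        mul_le_mul_of_nonneg_left h4 (by linarith)
      have h8 : M ^ (L + 2) = M * M * M ^ L := by ring
      rw [h8]
      have h9 : (M + 3) * M ^ L ≤ M * M * M ^ L :=
        mul_le_mul_of_nonneg_right (by nlinarith) (by positivity)
      nlinarith
    refine h2.trans (h6.trans ?_)
    have h7 : M ^ (L + 2) = Real.exp (((L + 2 : ℕ) : ℝ) * lg) := by
      rw [Real.exp_nat_mul, hlg, Real.exp_log hM0]
    have h8 : W = Real.exp (x * lg) := by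
      rw [hxl, hlW, Real.exp_log hW0]
    rw [h7, h8]
    apply Real.exp_le_exp.2
    push_cast
    exact mul_le_mul_of_nonneg_right hLx hlg0.le
  · rw [← hM]
    calc M ^ 2 * lW / (600 * lg ^ 2) ≤ x / 2 * M ^ 2 / (42 * (6 * lg)) := by
          rw [← hxl, div_mul_eq_mul_div, div_div, div_le_div_iff₀ (by positivity) (by positivity)]
          have h8 : 0 ≤ M ^ 2 * x * lg ^ 2 := by positivity
          nlinarith
      _ ≤ L * M ^ 2 / (42 * (6 * lg)) := by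
          apply div_le_div_of_nonneg_right _ (by positivity)
          exact mul_le_mul_of_nonneg_right hLx2 (by positivity)
      _ ≤ L * M ^ 2 / (42 * ℓ) := by
          apply div_le_div_of_nonneg_left (by positivity) (by positivity)
          linarith

end Pool.Agent.V5helper67.EB
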