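import Pool.Agent.V5helper67.EB.Main

open Finset
open scoped ENNReal

namespace Pool.Agent.V5helper67.EB

open Pool.Agent.Helper120.EaModel Pool.Agent.Helper120.EaJ4 Pool.Agent.V5helper67.EA

section weights

variable {E : Type} [Fintype E] (w : E → ℕ)

/-- number of the pairs with different weights -/
def n2 : ℕ := ((Finset.univ : Finset (E × E)).filter fun q => w q.1 < w q.2).card

variable {w}

theorem mm_nn_le (V : ℕ) : mm (nn w) 1 V ≤ (Ts w).card := by
  classical
  unfold mm nn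
  rw [← Nat.cast_sum]
  norm_cast
  rw [← Finset.card_biUnion]
  · apply Finset.card_le_card
    intro t ht
    rw [mem_biUnion] at ht
    obtain ⟨i, _, hi⟩ := ht
    exact (mem_filter.1 hi).1
  · intro i _ j _ hij
    rw [Function.onFun, disjoint_left]
    intro t h1 h2
    rw [mem_filter] at h1 h2
    omega

theorem mm_mu_le (hm : 0 < Fintype.card E) (V : ℕ) :
    mm (mu w) 1 V ≤ (n2 w : ℝ) / (Fintype.card E : ℝ) ^ 2 := by
  classical
  have hmR : (0 : ℝ) < Fintype.card E := by exact_mod_cast hm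
  have h1 := card_pairs (w := w) hm 1 V
  rw [le_div_iff₀ (by positivity), mul_comm, ← h1]
  unfold n2
  norm_cast
  exact Finset.card_le_card fun q hq => by
    rw [mem_filter] at hq ⊢
    exact ⟨hq.1, hq.2.1⟩

theorem LS_le {lam : ℕ → ℝ} (hlam : ∀ v, 0 < lam v) (hw : ∀ e, 0 < w e) (v : ℕ) (q : E × E) :
    LS w lam v q ≤ ∑ s ∈ (Icc 1 v).filter (fun s => lam v < lam s), nn w s * (s * lam s) := by
  classical
  have h0 : ∑ t ∈ (Ts w).filter (fun t => lam v < lam (dl w t) ∧ dl w t ≤ v), cc w lam t =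
      ∑ s ∈ (Icc 1 v).filter (fun s => lam v < lam s), nn w s * (s * lam s) := by
    rw [← Finset.sum_fiberwise_of_maps_to (g := dl w)
      (t := (Icc 1 v).filter (fun s => lam v < lam s))]
    · refine Finset.sum_congr rfl fun s hs => ?_
      rw [mem_filter, mem_Icc] at hs
      have h4 : ∀ t ∈ ((Ts w).filter (fun t => lam v < lam (dl w t) ∧ dl w t ≤ v)).filter
          (fun t => dl w t = s), cc w lam t = s * lam s := by
        intro t ht
        rw [mem_filter] at ht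
        unfold cc
        rw [ht.2]
      rw [Finset.sum_congr rfl h4, Finset.sum_const, nsmul_eq_mul]
      have h5 : ((Ts w).filter (fun t => lam v < lam (dl w t) ∧ dl w t ≤ v)).filter
          (fun t => dl w t = s) = (Ts w).filter (fun t => dl w t = s) := by
        ext t
        simp only [mem_filter]
        constructor
        · rintro ⟨⟨h6, _⟩, h7⟩
          exact ⟨h6, h7⟩
        · rintro ⟨h6, h7⟩
          refine ⟨⟨h6, ?_, ?_⟩, h7⟩
          · rw [h7]; exact hs.2
          · omega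
      rw [h5]
      rfl
    · intro t ht
      rw [mem_filter] at ht
      rw [mem_filter, mem_Icc]
      refine ⟨⟨?_, ht.2.2⟩, ht.2.1⟩
      have h6 : 0 < t := by
        obtain ⟨e, _, he⟩ := mem_image.1 ht.1
        rw [← he]; exact hw e
      exact gp_pos h6
  rw [← h0]
  unfold LS
  split_ifs with h
  · refine sum_le_sum_of_subset_of_nonneg ?_ fun t _ _ => cc_nonneg hlam t
    intro t ht
    rw [mem_filter] at ht
    rw [mem_filter]
    refine ⟨(mem_filter.1 ht.1).1, ht.2, le_trans ?_ h.2⟩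
    exact Finset.le_sup (f := dl w) ht.1
  · exact sum_nonneg fun t _ => cc_nonneg hlam t

end weights

variable {V E : Type} [Finite V] [Fintype E] [DecidableEq E] (G : WGraph V E)

omit [Finite V] in
/-- the first kind of rates -/
theorem exists_adm_A (hcard : 2 ≤ Fintype.card E) :
    ∃ (Vm : ℕ) (lam : ℕ → ℝ), Adm2 G lam (1 / 50) Vm ∧
      Fintype.card E * TT (nn G.weight) lam Vm ≤ (Fintype.card E : ℝ) ^ 3 *
        Real.exp (23 * (Real.sqrt ((Ts G.weight).card * ((n2 G.weight : ℝ) + 1)) /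
          Fintype.card E)) := by
  classical
  obtain ⟨w, hw⟩ : ∃ w, w = G.weight := ⟨_, rfl⟩
  have hwpos : ∀ e, 0 < w e := by rw [hw]; exact G.weight_pos
  have hcard0 : 0 < Fintype.card E := by omega
  obtain ⟨m, hm⟩ : ∃ m : ℝ, m = Fintype.card E := ⟨_, rfl⟩
  have hm1 : 2 ≤ m := by rw [hm]; exact_mod_cast hcard
  have hm0 : 0 < m := by linarith
  obtain ⟨R, hR⟩ : ∃ R : ℝ, R = (Ts w).card := ⟨_, rfl⟩
  have hR1 : 1 ≤ R := by
    rw [hR]
    have : 0 < (Ts w).card := by
      rw [card_pos]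
      have : Nonempty E := Fintype.card_pos_iff.1 hcard0
      exact ⟨_, w_mem w (Classical.arbitrary E)⟩
    exact_mod_cast this
  have hRm : R ≤ m := by
    rw [hR, hm]
    have : (Ts w).card ≤ Fintype.card E := Finset.card_image_le
    exact_mod_cast this
  obtain ⟨N2, hN2⟩ : ∃ N2 : ℝ, N2 = n2 w + 1 := ⟨_, rfl⟩
  have hN21 : 1 ≤ N2 := by
    rw [hN2]
    have : (0 : ℝ) ≤ n2 w := Nat.cast_nonneg _
    linarith
  obtain ⟨M', hM'⟩ : ∃ M', M' = N2 / m ^ 2 := ⟨_, rfl⟩
  have hM'0 : 0 < M' := by rw [hM']; positivity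
  obtain ⟨s, hs⟩ : ∃ s, s = Real.sqrt (R * M') := ⟨_, rfl⟩
  have hs0 : 0 < s := by rw [hs]; exact Real.sqrt_pos.2 (by positivity)
  have hss : s ^ 2 = R * M' := by rw [hs]; exact Real.sq_sqrt (by positivity)
  have hsm : s = Real.sqrt (R * N2) / m := by
    rw [hs, hM', ← mul_div_assoc, Real.sqrt_div (by positivity), Real.sqrt_sq hm0.le]
  set Vm := Fintype.card E * ∑ e, w e with hVm
  obtain ⟨lam, h1, h2, h3, h4⟩ := exists_lam (n := nn w) (μ := mu w) nn_nonneg mu_nonneg Vm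
    (ε := 1 / 50) (x := M' / (7 * s)) (by norm_num) (by positivity)
  have hone : ∀ v, 1 ≤ v → v ≤ Vm → 1 ≤ v * lam v := by
    intro v hv1 hv2
    have h5 := h3 v hv1 hv2
    have h6 : 0 ≤ LL (nn w) (mu w) lam v := sum_nonneg fun s _ =>
      mul_nonneg (mul_nonneg (nn_nonneg s) (mul_nonneg (Nat.cast_nonneg _) (h1 s).le))
        (mm_nonneg mu_nonneg _ _)
    linarith
  refine ⟨Vm, lam, ⟨h1, h2, hone, ?_, by norm_num, ?_, hcard0⟩, ?_⟩
  · intro x _ v hv1 hv2
    rw [← hw]
    have h5 : ∑ q ∈ BP G x, LS w lam v q ≤ ∑ q : E × E, LS w lam v q :=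
      sum_le_sum_of_subset_of_nonneg (subset_univ _) fun q _ _ => LS_nonneg h1 _ _
    refine h5.trans ((sum_LS (w := w) hcard0 h1 hwpos v).trans ?_)
    refine mul_le_mul_of_nonneg_left ?_ (by positivity)
    have := h3 v hv1 hv2
    linarith
  · intro k e hk
    rw [← hw, hVm]
    exact Nat.mul_le_mul hk (single_le_sum (f := w) (fun _ _ => Nat.zero_le _) (mem_univ e))
  · rw [← hw, ← hm, ← hR, ← hN2, ← hsm]
    have a1 := mm_nn_le (w := w) Vm
    have a2 := mm_mu_le (w := w) hcard0 Vm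
    have a3 := mm_nonneg (μ := nn w) nn_nonneg 1 Vm
    have a4 := mm_nonneg (μ := mu w) mu_nonneg 1 Vm
    rw [← hR] at a1
    rw [← hm] at a2
    obtain ⟨N, hN⟩ : ∃ N, N = mm (nn w) 1 Vm := ⟨_, rfl⟩
    obtain ⟨M, hM⟩ : ∃ M, M = mm (mu w) 1 Vm := ⟨_, rfl⟩
    rw [← hN] at a1 a3 h4
    rw [← hM] at a2 a4 h4
    have a5 : M ≤ M' := by
      refine a2.trans ?_
      rw [hM', hN2]
      apply div_le_div_of_nonneg_right _ (by positivity)
      linarith
    have a6 : N * M' ≤ s ^ 2 := by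
      rw [hss]
      exact mul_le_mul_of_nonneg_right a1 hM'0.le
    have b1 : M / (M' / (7 * s)) ≤ 7 * s := by
      rw [div_div_eq_mul_div, div_le_iff₀ hM'0]
      nlinarith
    have b2 : Real.sqrt (N * (M / (1 / 50))) ≤ 8 * s := by
      apply Real.sqrt_le_iff.2
      refine ⟨by positivity, ?_⟩
      have : N * (M / (1 / 50)) = 50 * (N * M) := by ring
      rw [this, mul_pow]
      have : N * M ≤ N * M' := mul_le_mul_of_nonneg_left a5 a3
      nlinarith
    have b3 : N * (M' / (7 * s)) / (1 / 50) ≤ 8 * s := by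
      rw [div_le_iff₀ (by norm_num), ← mul_div_assoc, div_le_iff₀ (by positivity)]
      nlinarith
    have b4 : M' * TT (nn w) lam Vm ≤ 7 * s * (1 / 50 * Real.exp (23 * s)) := by
      have c1 : M / (M' / (7 * s)) + Real.sqrt (N * (M / (1 / 50))) +
          N * (M' / (7 * s)) / (1 / 50) ≤ 23 * s := by linarith
      have c2 : M' / (7 * s) * TT (nn w) lam Vm ≤ 1 / 50 * Real.exp (23 * s) :=
        h4.trans (mul_le_mul_of_nonneg_left (Real.exp_le_exp.2 c1) (by norm_num))
      rw [div_mul_eq_mul_div, div_le_iff₀ (by positivity)] at c2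
      linarith
    -- `s ≤ m² M'`
    have b5 : s ≤ m ^ 2 * M' := by
      have e1 : m ^ 2 * M' = N2 := by rw [hM']; field_simp
      rw [e1, hsm, div_le_iff₀ hm0]
      apply Real.sqrt_le_iff.2
      refine ⟨by positivity, ?_⟩
      have e2 : R * N2 ≤ m * N2 := mul_le_mul_of_nonneg_right hRm (by linarith)
      have e3 : m * N2 ≤ (m * N2) * (m * N2) := le_mul_of_one_le_left (by positivity) (by nlinarith)
      nlinarith
    have hexp := Real.exp_pos (23 * s)
    have b6 : M' * TT (nn w) lam Vm ≤ M' * (m ^ 2 * Real.exp (23 * s)) := by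
      refine b4.trans ?_
      have : 7 * s * (1 / 50 * Real.exp (23 * s)) ≤ s * Real.exp (23 * s) := by
        nlinarith [mul_pos hs0 hexp]
      refine this.trans ?_
      have := mul_le_mul_of_nonneg_right b5 hexp.le
      linarith
    have b7 : TT (nn w) lam Vm ≤ m ^ 2 * Real.exp (23 * s) := le_of_mul_le_mul_left b6 hM'0
    calc m * TT (nn w) lam Vm ≤ m * (m ^ 2 * Real.exp (23 * s)) :=
          mul_le_mul_of_nonneg_left b7 hm0.le
      _ = _ := by ring

omit [Finite V] in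
/-- the second kind of rates -/
theorem exists_adm_B (hcard : 2 ≤ Fintype.card E) {P : ℕ}
    (hP : ∀ x, G.IsSpanningTree x → (BP G x).card ≤ P) :
    ∃ (Vm : ℕ) (lam : ℕ → ℝ), Adm2 G lam (1 / 50) Vm ∧
      Fintype.card E * TT (nn G.weight) lam Vm ≤ (Fintype.card E : ℝ) ^ 3 *
        Real.exp (50 * ((Ts G.weight).card * P / (Fintype.card E : ℝ) ^ 2)) := by
  classical
  obtain ⟨w, hw⟩ : ∃ w, w = G.weight := ⟨_, rfl⟩
  have hwpos : ∀ e, 0 < w e := by rw [hw]; exact G.weight_pos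
  have hcard0 : 0 < Fintype.card E := by omega
  obtain ⟨m, hm⟩ : ∃ m : ℝ, m = Fintype.card E := ⟨_, rfl⟩
  have hm1 : 2 ≤ m := by rw [hm]; exact_mod_cast hcard
  have hm0 : 0 < m := by linarith
  obtain ⟨R, hR⟩ : ∃ R : ℝ, R = (Ts w).card := ⟨_, rfl⟩
  have hRm : R ≤ m := by
    rw [hR, hm]
    have : (Ts w).card ≤ Fintype.card E := Finset.card_image_le
    exact_mod_cast this
  have hR0 : 0 ≤ R := by rw [hR]; exact Nat.cast_nonneg _
  obtain ⟨q, hq⟩ : ∃ q : ℝ, q = 50 * (P / m ^ 2) := ⟨_, rfl⟩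
  have hq0 : 0 ≤ q := by rw [hq]; positivity
  set Vm := Fintype.card E * ∑ e, w e with hVm
  have hpos : ∀ v, 0 < ll (nn w) q v := fun v => (ll_TT_pos nn_nonneg hq0 v).1
  have hA0 : ∀ v, 0 ≤ ∑ s ∈ (Icc 1 v).filter (fun s => ll (nn w) q v < ll (nn w) q s),
      nn w s * (s * ll (nn w) q s) := fun v => sum_nonneg fun s _ =>
    mul_nonneg (nn_nonneg s) (mul_nonneg (Nat.cast_nonneg _) (hpos s).le)
  refine ⟨Vm, ll (nn w) q, ⟨hpos, fun a b h _ => ll_anti h, ?_, ?_, by norm_num, ?_, hcard0⟩, ?_⟩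
  · intro v hv1 _
    have h1 := star (n := nn w) nn_nonneg hq0 hv1
    have h2 := mul_nonneg hq0 (hA0 v)
    linarith
  · intro x hx v hv1 _
    rw [← hw]
    have h1 := star (n := nn w) nn_nonneg hq0 hv1
    obtain ⟨A, hA⟩ : ∃ A, A = ∑ s ∈ (Icc 1 v).filter (fun s => ll (nn w) q v < ll (nn w) q s),
      nn w s * (s * ll (nn w) q s) := ⟨_, rfl⟩
    have h2 := hA0 v
    rw [← hA] at h1 h2
    have h3 : ∑ z ∈ BP G x, LS w (ll (nn w) q) v z ≤ (BP G x).card * A := by
      rw [← nsmul_eq_mul]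
      refine sum_le_card_nsmul _ _ _ fun z _ => ?_
      rw [hA]
      exact LS_le hpos hwpos v z
    have h4 : ((BP G x).card : ℝ) * A ≤ P * A :=
      mul_le_mul_of_nonneg_right (by exact_mod_cast hP x hx) h2
    refine h3.trans (h4.trans ?_)
    rw [← hm]
    have h5 : (P : ℝ) * A = m ^ 2 * (1 / 50 * (q * A)) := by
      rw [hq]; field_simp
    rw [h5]
    refine mul_le_mul_of_nonneg_left ?_ (by positivity)
    linarith
  · intro k e hk
    rw [← hw, hVm]
    exact Nat.mul_le_mul hk (single_le_sum (f := w) (fun _ _ => Nat.zero_le _) (mem_univ e))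
  · rw [← hw, ← hm, ← hR]
    have h1 := (grow (n := nn w) nn_nonneg hq0 Vm).2
    have a1 := mm_nn_le (w := w) Vm
    have a3 := mm_nonneg (μ := nn w) nn_nonneg 1 Vm
    rw [← hR] at a1
    obtain ⟨N, hN⟩ : ∃ N, N = mm (nn w) 1 Vm := ⟨_, rfl⟩
    rw [← hN] at a1 a3 h1
    have e1 : Real.exp (q * N) ≤ Real.exp (50 * (R * P / m ^ 2)) := by
      apply Real.exp_le_exp.2
      have e2 : 50 * (R * P / m ^ 2) = q * R := by rw [hq]; ring
      rw [e2]
      exact mul_le_mul_of_nonneg_left a1 hq0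
    have e3 : N * Real.exp (q * N) ≤ m ^ 2 * Real.exp (50 * (R * P / m ^ 2)) := by
      refine mul_le_mul ?_ e1 (Real.exp_pos _).le (by positivity)
      nlinarith
    calc m * TT (nn w) (ll (nn w) q) Vm ≤ m * (m ^ 2 * Real.exp (50 * (R * P / m ^ 2))) :=
          mul_le_mul_of_nonneg_left (h1.trans e3) hm0.le
      _ = _ := by ring

/-- **The first upper bound.** -/
theorem upper_A (hcard : 2 ≤ Fintype.card E) {x0 : Finset E} (hx0 : G.IsSpanningTree x0) :
    G.expectedRuntime x0 ≤ ENNReal.ofReal (250 * ((Fintype.card E : ℝ) ^ 2 *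
      Real.log (Fintype.card E) +
      Fintype.card E * Real.sqrt ((Ts G.weight).card * (n2 G.weight : ℝ)))) := by
  classical
  obtain ⟨Vm, lam, hA, hB⟩ := exists_adm_A G hcard
  obtain ⟨m, hm⟩ : ∃ m : ℝ, m = Fintype.card E := ⟨_, rfl⟩
  have hm1 : 2 ≤ m := by rw [hm]; exact_mod_cast hcard
  have hm0 : 0 < m := by linarith
  obtain ⟨R, hR⟩ : ∃ R : ℝ, R = (Ts G.weight).card := ⟨_, rfl⟩
  have hRm : R ≤ m := by
    rw [hR, hm]
    have : (Ts G.weight).card ≤ Fintype.card E := Finset.card_image_le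
    exact_mod_cast this
  have hR0 : 0 ≤ R := by rw [hR]; exact Nat.cast_nonneg _
  obtain ⟨K, hK⟩ : ∃ K : ℝ, K = n2 G.weight := ⟨_, rfl⟩
  have hK0 : 0 ≤ K := by rw [hK]; exact Nat.cast_nonneg _
  have h := upper_core hcard hA le_rfl hx0 (B := (Fintype.card E : ℝ) ^ 3 *
        Real.exp (23 * (Real.sqrt ((Ts G.weight).card * ((n2 G.weight : ℝ) + 1)) /
          Fintype.card E))) (by
      rw [← hm]
      have h1 : 1 ≤ m ^ 3 := one_le_pow₀ (by linarith)
      have h2 : 1 ≤ Real.exp (23 * (Real.sqrt ((Ts G.weight).card * ((n2 G.weight : ℝ) + 1)) /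
          m)) := Real.one_le_exp (by positivity)
      nlinarith) hB
  refine h.trans (ENNReal.ofReal_le_ofReal ?_)
  rw [← hm, ← hR, ← hK, Real.log_mul (by positivity) (Real.exp_pos _).ne', Real.log_exp,
    Real.log_pow]
  have hl2 : 0.69 ≤ Real.log m := by
    have h1 := Real.log_two_gt_d9
    have h2 : Real.log 2 ≤ Real.log m := Real.log_le_log (by norm_num) hm1
    linarith
  have hsq : Real.sqrt (R * (K + 1)) ≤ Real.sqrt (R * K) + m := by
    have h1 : Real.sqrt (R * (K + 1)) ≤ Real.sqrt (R * K) + Real.sqrt R := by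
      apply Real.sqrt_le_iff.2
      refine ⟨by positivity, ?_⟩
      have h2 := Real.sq_sqrt (show 0 ≤ R * K by positivity)
      have h3 := Real.sq_sqrt hR0
      have h4 : 0 ≤ Real.sqrt (R * K) * Real.sqrt R := by positivity
      nlinarith
    have h5 : Real.sqrt R ≤ m := by
      apply Real.sqrt_le_iff.2
      refine ⟨hm0.le, ?_⟩
      nlinarith
    linarith
  have hS0 : 0 ≤ Real.sqrt (R * K) := Real.sqrt_nonneg _
  have e1 : 5 * m ^ 2 * (1 + (((3 : ℕ) : ℝ) * Real.log m + 23 * (Real.sqrt (R * (K + 1)) / m))) =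
      5 * m ^ 2 + 15 * (m ^ 2 * Real.log m) + 115 * (m * Real.sqrt (R * (K + 1))) := by
    push_cast
    field_simp
    ring
  rw [e1]
  have e2 : m * Real.sqrt (R * (K + 1)) ≤ m * Real.sqrt (R * K) + m ^ 2 := by
    have := mul_le_mul_of_nonneg_left hsq hm0.le
    nlinarith
  have e3 : m ^ 2 * 0.69 ≤ m ^ 2 * Real.log m := mul_le_mul_of_nonneg_left hl2 (by positivity)
  have e4 : 0 ≤ m * Real.sqrt (R * K) := by positivity
  nlinarith

/-- **The second upper bound.** -/
theorem upper_B (hcard : 2 ≤ Fintype.card E) {P : ℕ}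
    (hP : ∀ x, G.IsSpanningTree x → (BP G x).card ≤ P) {x0 : Finset E}
    (hx0 : G.IsSpanningTree x0) :
    G.expectedRuntime x0 ≤ ENNReal.ofReal (250 * ((Fintype.card E : ℝ) ^ 2 *
      Real.log (Fintype.card E) + (Ts G.weight).card * P)) := by
  classical
  obtain ⟨Vm, lam, hA, hB⟩ := exists_adm_B G hcard hP
  obtain ⟨m, hm⟩ : ∃ m : ℝ, m = Fintype.card E := ⟨_, rfl⟩
  have hm1 : 2 ≤ m := by rw [hm]; exact_mod_cast hcard
  have hm0 : 0 < m := by linarith
  obtain ⟨R, hR⟩ : ∃ R : ℝ, R = (Ts G.weight).card := ⟨_, rfl⟩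
  have hR0 : 0 ≤ R := by rw [hR]; exact Nat.cast_nonneg _
  have h := upper_core hcard hA le_rfl hx0 (B := (Fintype.card E : ℝ) ^ 3 *
        Real.exp (50 * ((Ts G.weight).card * P / (Fintype.card E : ℝ) ^ 2))) (by
      rw [← hm]
      have h1 : 1 ≤ m ^ 3 := one_le_pow₀ (by linarith)
      have h2 : 1 ≤ Real.exp (50 * ((Ts G.weight).card * P / m ^ 2)) :=
        Real.one_le_exp (by positivity)
      nlinarith) hB
  refine h.trans (ENNReal.ofReal_le_ofReal ?_)
  rw [← hm, ← hR, Real.log_mul (by positivity) (Real.exp_pos _).ne', Real.log_exp,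
    Real.log_pow]
  have hl2 : 0.69 ≤ Real.log m := by
    have h1 := Real.log_two_gt_d9
    have h2 : Real.log 2 ≤ Real.log m := Real.log_le_log (by norm_num) hm1
    linarith
  have e1 : 5 * m ^ 2 * (1 + (((3 : ℕ) : ℝ) * Real.log m + 50 * (R * P / m ^ 2))) =
      5 * m ^ 2 + 15 * (m ^ 2 * Real.log m) + 250 * (R * P) := by
    push_cast
    field_simp
    ring
  rw [e1]
  have e3 : m ^ 2 * 0.69 ≤ m ^ 2 * Real.log m := mul_le_mul_of_nonneg_left hl2 (by positivity)
  nlinarith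

end Pool.Agent.V5helper67.EB
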