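import Pool.Agent.V5helper67.EA.UpperMain

open Finset

namespace Pool.Agent.V5helper67.EB

open Pool.Agent.Helper120.EaModel Pool.Agent.Helper120.EaJ4 Pool.Agent.V5helper67.EA

variable {V E : Type} [Finite V] [Fintype E] [DecidableEq E] (G : WGraph V E) (lam : ℕ → ℝ)

open Classical in
/-- the worsening swaps of a spanning tree -/
noncomputable def BP (x : Finset E) : Finset (E × E) :=
  Finset.univ.filter fun q => q.1 ∈ x ∧ q.2 ∉ x ∧ G.weight q.1 < G.weight q.2 ∧
    G.IsSpanningTree (insert q.2 (x.erase q.1))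

/-- the rates are admissible -/
structure Adm2 (ε : ℝ) (Vm : ℕ) : Prop where
  pos : ∀ v, 0 < lam v
  anti : ∀ a b, a ≤ b → b ≤ Vm → lam b ≤ lam a
  one_le : ∀ v, 1 ≤ v → v ≤ Vm → 1 ≤ v * lam v
  sum : ∀ x : Finset E, G.IsSpanningTree x → ∀ v, 1 ≤ v → v ≤ Vm →
    ∑ q ∈ BP G x, LS G.weight lam v q ≤ (Fintype.card E : ℝ) ^ 2 * (ε * (v * lam v))
  eps : 0 < ε
  big : ∀ k e, k ≤ Fintype.card E → k * G.weight e ≤ Vm
  card : 0 < Fintype.card E

variable {G lam}

omit [Finite V] in
theorem mem_BP {x : Finset E} {z : E × E} : z ∈ BP G x ↔ z.1 ∈ x ∧ z.2 ∉ x ∧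
    G.weight z.1 < G.weight z.2 ∧ G.IsSpanningTree (insert z.2 (x.erase z.1)) := by
  unfold BP; simp

omit [Finite V] in
theorem Adm2.w_le {ε : ℝ} {Vm : ℕ} (h : Adm2 G lam ε Vm) (e : E) : G.weight e ≤ Vm := by
  have := h.big 1 e h.card
  omega

omit [Finite V] in
/-- a pair with positive difference: the potential difference is at least `u * lam u` -/
theorem Adm2.gain {ε : ℝ} {Vm : ℕ} (h : Adm2 G lam ε Vm) {a b : E}
    (hab : G.weight a ≤ G.weight b)
    {v : ℕ} (hv : G.weight b - G.weight a ≤ v) (hvV : v ≤ Vm) :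
    ((G.weight b - G.weight a : ℕ) : ℝ) * lam v ≤ gg G.weight lam b - gg G.weight lam a := by
  have h1 := gg_sub G.weight lam hab
  have h2 := w_sub G.weight hab
  rw [h1, add_sub_cancel_left]
  have h3 : G.weight b - G.weight a = ∑ t ∈ cr G.weight a b, dl G.weight t := by omega
  rw [h3]
  push_cast
  rw [sum_mul]
  refine sum_le_sum fun t ht => ?_
  unfold cc
  refine mul_le_mul_of_nonneg_left ?_ (Nat.cast_nonneg _)
  exact h.anti _ _ ((dl_le G.weight hab ht).trans hv) hvV

omit [Finite V] in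
/-- a bad pair: its potential difference is at most `u * lam v` plus the charged part -/
theorem Adm2.loss {ε : ℝ} {Vm : ℕ} (h : Adm2 G lam ε Vm) {a b : E}
    (hab : G.weight a < G.weight b)
    {v v' : ℕ} (hv : G.weight b - G.weight a ≤ v') (hvV : v' ≤ Vm) (hvv : v ≤ v') :
    gg G.weight lam b - gg G.weight lam a ≤ ((G.weight b - G.weight a : ℕ) : ℝ) * lam v +
      LS G.weight lam v' (a, b) := by
  classical
  have h1 := gg_sub G.weight lam hab.le
  have h2 := w_sub G.weight hab.le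
  rw [h1, add_sub_cancel_left]
  have h3 : G.weight b - G.weight a = ∑ t ∈ cr G.weight a b, dl G.weight t := by omega
  rw [h3]
  push_cast
  rw [sum_mul]
  unfold LS
  rw [if_pos ⟨hab, (mg_le G.weight hab.le).trans hv⟩]
  simp only
  rw [← sum_filter_add_sum_filter_not (cr G.weight a b) (fun t => lam v' < lam (dl G.weight t))
    (fun t => cc G.weight lam t)]
  have h4 : ∑ t ∈ (cr G.weight a b).filter (fun t => ¬ lam v' < lam (dl G.weight t)),
      cc G.weight lam t ≤ ∑ t ∈ cr G.weight a b, (dl G.weight t : ℝ) * lam v := by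
    calc _ ≤ ∑ t ∈ (cr G.weight a b).filter (fun t => ¬ lam v' < lam (dl G.weight t)),
          (dl G.weight t : ℝ) * lam v := by
          refine sum_le_sum fun t ht => ?_
          rw [mem_filter] at ht
          unfold cc
          refine mul_le_mul_of_nonneg_left ?_ (Nat.cast_nonneg _)
          have h5 := h.anti v v' hvv hvV
          have h6 := not_lt.1 ht.2
          linarith
      _ ≤ _ := sum_le_sum_of_subset_of_nonneg (filter_subset _ _) fun t _ _ =>
          mul_nonneg (Nat.cast_nonneg _) (h.pos _).le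
  linarith

/-- **The charging lemma.** -/
theorem charge {ε : ℝ} {Vm : ℕ} (hA : Adm2 G lam ε Vm) {x y : Finset E}
    (hx : G.IsSpanningTree x) (hy : G.IsSpanningTree y)
    (hw : G.totalWeight y ≤ G.totalWeight x) :
    gs G lam y - gs G lam x ≤ ∑ z ∈ (ZZ G x).filter (fun z => z.1 ∈ x \ y ∧ z.2 ∈ y \ x),
      ∑ q ∈ (BP G x).filter
        (fun q => q.1 ∈ x \ y ∧ q.2 ∈ y \ x ∧ q.1 ≠ z.1 ∧ q.2 ≠ z.2),
        LS G.weight lam ((x \ y).card * (G.weight z.1 - G.weight z.2)) q := by
  classical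
  obtain ⟨σ, hσ1, hσ2, hσ3⟩ := bij_exchange hx hy
  set w := G.weight with hwdef
  set B := y \ x with hB
  have hsumx : ∀ f : E → ℝ, ∑ e ∈ x \ y, f e = ∑ e ∈ B, f (σ e) := by
    intro f
    rw [← hσ3, sum_image hσ2]
  have hsumxN : ∀ f : E → ℕ, ∑ e ∈ x \ y, f e = ∑ e ∈ B, f (σ e) := by
    intro f
    rw [← hσ3, sum_image hσ2]
  have hcard : (x \ y).card = B.card := by
    rw [← hσ3, card_image_of_injOn hσ2]
  -- gains and losses in weight
  set W := ∑ f ∈ B, (w (σ f) - w f) with hW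
  have hbad : ∑ f ∈ B, (w f - w (σ f)) ≤ W := by
    have h1 : ∑ f ∈ B, (w f - w (σ f)) + ∑ f ∈ B, w (σ f) =
        ∑ f ∈ B, (w (σ f) - w f) + ∑ f ∈ B, w f := by
      rw [← sum_add_distrib, ← sum_add_distrib]
      refine sum_congr rfl fun f _ => ?_
      omega
    have h2 : G.totalWeight y + ∑ f ∈ B, w (σ f) = G.totalWeight x + ∑ f ∈ B, w f := by
      rw [← hsumxN w]
      exact tw_diff (G := G) x y
    omega
  have hRHS : 0 ≤ ∑ z ∈ (ZZ G x).filter (fun z => z.1 ∈ x \ y ∧ z.2 ∈ B),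
      ∑ q ∈ (BP G x).filter
        (fun q => q.1 ∈ x \ y ∧ q.2 ∈ B ∧ q.1 ≠ z.1 ∧ q.2 ≠ z.2),
        LS w lam ((x \ y).card * (w z.1 - w z.2)) q :=
    sum_nonneg fun z _ => sum_nonneg fun q _ => LS_nonneg hA.pos _ _
  rw [gs_diff, hsumx, ← hwdef, ← sum_sub_distrib]
  rcases Nat.eq_zero_or_pos W with hW0 | hWpos
  · -- no gain
    refine le_trans ?_ hRHS
    refine sum_nonpos fun f hf => ?_
    have h1 : w f - w (σ f) = 0 := by
      have h2 : w f - w (σ f) ≤ ∑ f ∈ B, (w f - w (σ f)) :=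
        single_le_sum (f := fun f => w f - w (σ f)) (fun _ _ => Nat.zero_le _) hf
      omega
    have h2 : w f ≤ w (σ f) := by omega
    have := gg_mono (w := w) hA.pos h2
    linarith
  · -- the largest gain
    have hBne : B.Nonempty := by
      by_contra hcon
      rw [not_nonempty_iff_eq_empty] at hcon
      rw [hW, hcon, sum_empty] at hWpos
      omega
    obtain ⟨f0, hf0, hmax⟩ := exists_max_image B (fun f => w (σ f) - w f) hBne
    set u := w (σ f0) - w f0 with hu
    have hWu : W ≤ B.card * u := by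
      rw [hW, ← smul_eq_mul]
      exact sum_le_card_nsmul _ _ _ hmax
    have hupos : 0 < u := by
      rcases Nat.eq_zero_or_pos u with h | h
      · rw [h] at hWu; omega
      · exact h
    set v' := (x \ y).card * u with hv'
    have hWv : W ≤ v' := by rw [hv', hcard]; exact hWu
    have hv'V : v' ≤ Vm := by
      refine le_trans ?_ (hA.big (x \ y).card (σ f0) (card_le_univ _))
      exact Nat.mul_le_mul_left _ (Nat.sub_le _ _)
    have hz : (σ f0, f0) ∈ (ZZ G x).filter (fun z => z.1 ∈ x \ y ∧ z.2 ∈ B) := by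
      rw [mem_filter, mem_ZZ]
      have h1 := hσ1 f0 hf0
      have h2 := hf0
      rw [hB, mem_sdiff] at h2
      refine ⟨⟨(mem_sdiff.1 h1.1).1, h2.2, ?_, h1.2⟩, h1.1, hf0⟩
      change w f0 < w (σ f0)
      omega
    -- estimate of the sum
    have hgood : ∀ f ∈ B, w f ≤ w (σ f) →
        gg w lam f - gg w lam (σ f) ≤ - (((w (σ f) - w f : ℕ) : ℝ) * lam W) := by
      intro f hf h
      have h1 : w (σ f) - w f ≤ W :=
        single_le_sum (f := fun f => w (σ f) - w f) (fun _ _ => Nat.zero_le _) hf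
      have := hA.gain h h1 (hWv.trans hv'V)
      linarith
    have hbad1 : ∀ f ∈ B, w (σ f) < w f → w f - w (σ f) ≤ W := by
      intro f hf _
      exact (single_le_sum (f := fun f => w f - w (σ f)) (fun _ _ => Nat.zero_le _) hf).trans
        hbad
    have hbad2 : ∀ f ∈ B, w (σ f) < w f →
        gg w lam f - gg w lam (σ f) ≤ ((w f - w (σ f) : ℕ) : ℝ) * lam W +
          LS w lam v' (σ f, f) := by
      intro f hf h
      exact hA.loss h ((hbad1 f hf h).trans hWv) hv'V hWv
    have hall : ∀ f ∈ B, gg w lam f - gg w lam (σ f) ≤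
        ((w f - w (σ f) : ℕ) : ℝ) * lam W - ((w (σ f) - w f : ℕ) : ℝ) * lam W +
          (if w (σ f) < w f then LS w lam v' (σ f, f) else 0) := by
      intro f hf
      split_ifs with h
      · have h1 := hbad2 f hf h
        have h2 : w (σ f) - w f = 0 := by omega
        rw [h2]
        push_cast
        linarith
      · have h1 := hgood f hf (not_lt.1 h)
        have h2 : w f - w (σ f) = 0 := by omega
        rw [h2]
        push_cast
        linarith
    have hlamW : 0 < lam W := hA.pos W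
    have hstep1 : ∑ f ∈ B, (gg w lam f - gg w lam (σ f)) ≤
        ∑ f ∈ B, (if w (σ f) < w f then LS w lam v' (σ f, f) else 0) := by
      refine (sum_le_sum hall).trans ?_
      rw [sum_add_distrib, sum_sub_distrib, ← sum_mul, ← sum_mul]
      have h1 : (∑ f ∈ B, ((w f - w (σ f) : ℕ) : ℝ)) ≤ ∑ f ∈ B, ((w (σ f) - w f : ℕ) : ℝ) := by
        exact_mod_cast hbad
      have h2 := mul_le_mul_of_nonneg_right h1 hlamW.le
      linarith
    have hstep2 : ∑ f ∈ B, (if w (σ f) < w f then LS w lam v' (σ f, f) else 0) ≤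
        ∑ q ∈ (BP G x).filter
          (fun q => q.1 ∈ x \ y ∧ q.2 ∈ B ∧ q.1 ≠ σ f0 ∧ q.2 ≠ f0), LS w lam v' q := by
      rw [← sum_filter]
      have hinj : Set.InjOn (fun f => (σ f, f)) (B.filter fun f => w (σ f) < w f : Finset E) := by
        intro f _ f' _ h
        exact (Prod.mk.injEq _ _ _ _ ▸ h).2
      rw [← sum_image (f := fun q => LS w lam v' q) hinj]
      refine sum_le_sum_of_subset_of_nonneg ?_ fun q _ _ => LS_nonneg hA.pos _ _
      intro q hq
      rw [mem_image] at hq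
      obtain ⟨f, hf, rfl⟩ := hq
      rw [mem_filter] at hf
      rw [mem_filter, mem_BP]
      have hne : f ≠ f0 := by
        intro hcon
        subst hcon
        omega
      have h1 := hσ1 f hf.1
      have h2 := hf.1
      rw [hB, mem_sdiff] at h2
      refine ⟨⟨(mem_sdiff.1 h1.1).1, h2.2, hf.2, h1.2⟩, h1.1, hf.1, ?_, hne⟩
      intro hcon
      exact hne (hσ2 (by exact_mod_cast hf.1) (by exact_mod_cast hf0) hcon)
    refine hstep1.trans (hstep2.trans ?_)
    have h3 := single_le_sum (f := fun z : E × E =>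
      ∑ q ∈ (BP G x).filter
        (fun q => q.1 ∈ x \ y ∧ q.2 ∈ B ∧ q.1 ≠ z.1 ∧ q.2 ≠ z.2),
        LS w lam ((x \ y).card * (w z.1 - w z.2)) q)
      (fun z _ => sum_nonneg fun q _ => LS_nonneg hA.pos _ _) hz
    exact h3

open Classical in
/-- the charged loss of a flip set -/
noncomputable def HH (G : WGraph V E) (lam : ℕ → ℝ) (x F : Finset E) : ℝ :=
  ∑ z ∈ ZZ G x, ∑ q ∈ (BP G x).filter (fun q => q.1 ≠ z.1 ∧ q.2 ≠ z.2),
    if {z.1, z.2, q.1, q.2} ⊆ F then
      LS G.weight lam (F.card / 2 * (G.weight z.1 - G.weight z.2)) q else 0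

omit [Finite V] in
theorem HH_nonneg {ε : ℝ} {Vm : ℕ} (hA : Adm2 G lam ε Vm) (x F : Finset E) :
    0 ≤ HH G lam x F := by
  unfold HH
  refine sum_nonneg fun z _ => sum_nonneg fun q _ => ?_
  split_ifs
  · exact LS_nonneg hA.pos _ _
  · exact le_rfl

omit [Finite V] in
theorem UU_nonneg {ε : ℝ} {Vm : ℕ} (hA : Adm2 G lam ε Vm) {x : Finset E} {z : E × E}
    (hz : z ∈ ZZ G x) : 0 ≤ UU G lam z := by
  rw [mem_ZZ] at hz
  unfold UU
  have := gg_mono (w := G.weight) hA.pos hz.2.2.1.le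
  linarith

theorem HH_ge {ε : ℝ} {Vm : ℕ} (hA : Adm2 G lam ε Vm) {x F : Finset E}
    (hx : G.IsSpanningTree x) (hy : G.IsSpanningTree (symmDiff x F))
    (hw : G.totalWeight (symmDiff x F) ≤ G.totalWeight x) :
    gs G lam (symmDiff x F) - gs G lam x ≤ HH G lam x F := by
  classical
  have h1 := charge hA hx hy hw
  have hs1 : x \ symmDiff x F = x ∩ F := by
    ext e; simp only [mem_sdiff, mem_symmDiff, mem_inter]; tauto
  have hs2 : symmDiff x F \ x = F \ x := by
    ext e; simp only [mem_sdiff, mem_symmDiff]; tauto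
  have hc : (x \ symmDiff x F).card = F.card / 2 := by
    have h2 := tree_card hx hy
    have h3 := card_sdiff_add_card_inter x (symmDiff x F)
    have h4 := card_sdiff_add_card_inter (symmDiff x F) x
    rw [inter_comm (symmDiff x F) x] at h4
    rw [hs1] at h3 ⊢
    rw [hs2] at h4
    have h5 := card_sdiff_add_card_inter F x
    rw [inter_comm F x] at h5
    omega
  refine h1.trans ?_
  rw [hc, hs1, hs2]
  unfold HH
  refine (sum_le_sum (g := fun z => ∑ q ∈ (BP G x).filter
    (fun q => q.1 ≠ z.1 ∧ q.2 ≠ z.2),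
    if {z.1, z.2, q.1, q.2} ⊆ F then
      LS G.weight lam (F.card / 2 * (G.weight z.1 - G.weight z.2)) q else 0) ?_).trans ?_
  · intro z hz
    rw [mem_filter] at hz
    rw [← sum_filter]
    refine sum_le_sum_of_subset_of_nonneg ?_ fun q _ _ => LS_nonneg hA.pos _ _
    intro q hq
    rw [mem_filter] at hq ⊢
    rw [mem_filter]
    have h2 := mem_inter.1 hz.2.1
    have h3 := mem_sdiff.1 hz.2.2
    have h4 := mem_inter.1 hq.2.1
    have h5 := mem_sdiff.1 hq.2.2.1
    refine ⟨⟨hq.1, hq.2.2.2.1, hq.2.2.2.2⟩, ?_⟩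
    intro e he
    simp only [mem_insert, mem_singleton] at he
    rcases he with rfl | rfl | rfl | rfl
    · exact h2.2
    · exact h3.1
    · exact h4.2
    · exact h5.1
  · refine sum_le_sum_of_subset_of_nonneg (filter_subset _ _) fun z _ _ => ?_
    refine sum_nonneg fun q _ => ?_
    split_ifs
    · exact LS_nonneg hA.pos _ _
    · exact le_rfl

omit [Finite V] in
theorem HH_sum (hcard : 2 ≤ Fintype.card E) {ε : ℝ} {Vm : ℕ} (hA : Adm2 G lam ε Vm)
    {x : Finset E} (hx : G.IsSpanningTree x) :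
    ∑ F : Finset E, flipProb F * HH G lam x F ≤
      5 / 2 * Real.exp 1 * ε * (1 / (Fintype.card E : ℝ)) ^ 2 * ∑ z ∈ ZZ G x, UU G lam z := by
  classical
  set m := Fintype.card E with hm
  set w := G.weight with hwd
  have hm0 : 0 < m := by omega
  have hmR : (0 : ℝ) < m := by exact_mod_cast hm0
  -- reorder
  have h1 : ∑ F : Finset E, flipProb F * HH G lam x F = ∑ z ∈ ZZ G x,
      ∑ q ∈ (BP G x).filter (fun q => q.1 ≠ z.1 ∧ q.2 ≠ z.2), ∑ F : Finset E,
        (if {z.1, z.2, q.1, q.2} ⊆ F then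
          flipProb F * LS w lam (F.card / 2 * (w z.1 - w z.2)) q else 0) := by
    unfold HH
    simp only [mul_sum]
    rw [sum_comm]
    refine sum_congr rfl fun z _ => ?_
    rw [sum_comm]
    refine sum_congr rfl fun q _ => sum_congr rfl fun F _ => ?_
    rw [mul_ite, mul_zero]
  rw [h1, mul_sum]
  refine sum_le_sum fun z hz => ?_
  have hz' := mem_ZZ.1 hz
  set u := w z.1 - w z.2 with hu
  have hupos : 0 < u := by
    have : w z.2 < w z.1 := hz'.2.2.1
    omega
  -- one pair
  have h2 : ∀ q ∈ (BP G x).filter (fun q => q.1 ≠ z.1 ∧ q.2 ≠ z.2), ∑ F : Finset E,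
        (if {z.1, z.2, q.1, q.2} ⊆ F then
          flipProb F * LS w lam (F.card / 2 * u) q else 0) ≤
        ∑ j ∈ range (m + 1), (if 4 ≤ j then
          (((m - 4).choose (j - 4) : ℕ) : ℝ) * (1 / (m : ℝ)) ^ j * LS w lam (j / 2 * u) q
          else 0) := by
    intro q hq
    rw [mem_filter, mem_BP] at hq
    obtain ⟨⟨q1, q2, _, _⟩, q3, q4⟩ := hq
    have hQ : ({z.1, z.2, q.1, q.2} : Finset E).card = 4 := by
      have a1 : z.1 ≠ z.2 := fun h => hz'.2.1 (h ▸ hz'.1)
      have a2 : z.1 ≠ q.2 := fun h => q2 (h ▸ hz'.1)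
      have a3 : z.2 ≠ q.1 := fun h => hz'.2.1 (h ▸ q1)
      have a4 : q.1 ≠ q.2 := fun h => q2 (h ▸ q1)
      rw [card_insert_of_notMem, card_insert_of_notMem, card_insert_of_notMem, card_singleton]
      · simpa using a4
      · simp only [mem_insert, mem_singleton, not_or]
        exact ⟨a3, q4.symm⟩
      · simp only [mem_insert, mem_singleton, not_or]
        exact ⟨a1, q3.symm, a2⟩
    exact sum_sup hcard hQ (φ := fun j => LS w lam (j / 2 * u) q)
      fun j => LS_nonneg hA.pos _ _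
  refine (sum_le_sum h2).trans ?_
  rw [sum_comm]
  -- one size
  have h3 : ∀ j ∈ range (m + 1), ∑ q ∈ (BP G x).filter (fun q => q.1 ≠ z.1 ∧ q.2 ≠ z.2),
      (if 4 ≤ j then
          (((m - 4).choose (j - 4) : ℕ) : ℝ) * (1 / (m : ℝ)) ^ j * LS w lam (j / 2 * u) q
          else 0) ≤
      (if 4 ≤ j then (((m - 4).choose (j - 4) : ℕ) : ℝ) * (1 / (m : ℝ)) ^ j *
        ((j / 2 : ℕ) : ℝ) else 0) * ((m : ℝ) ^ 2 * (ε * UU G lam z)) := by
    intro j hj
    rw [mem_range] at hj
    split_ifs with h4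
    · rw [← mul_sum]
      have hj2 : 1 ≤ j / 2 := by omega
      have hv1 : 1 ≤ j / 2 * u := Nat.mul_pos hj2 hupos
      have hv2 : j / 2 * u ≤ Vm := by
        refine le_trans ?_ (hA.big (j / 2) z.1 (by omega))
        exact Nat.mul_le_mul_left _ (Nat.sub_le _ _)
      have h5 : ∑ q ∈ (BP G x).filter (fun q => q.1 ≠ z.1 ∧ q.2 ≠ z.2),
          LS w lam (j / 2 * u) q ≤ ∑ q ∈ BP G x, LS w lam (j / 2 * u) q :=
        sum_le_sum_of_subset_of_nonneg (filter_subset _ _) fun q _ _ => LS_nonneg hA.pos _ _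
      have h6 := hA.sum x hx (j / 2 * u) hv1 hv2
      have h8 : lam (j / 2 * u) ≤ lam u :=
        hA.anti _ _ (Nat.le_mul_of_pos_left u hj2) hv2
      have h9 : (u : ℝ) * lam u ≤ UU G lam z := by
        have := hA.gain (v := u) hz'.2.2.1.le le_rfl
          (le_trans (Nat.sub_le _ _) (hA.w_le z.1))
        exact this
      have h10 : ((j / 2 * u : ℕ) : ℝ) * lam (j / 2 * u) ≤ ((j / 2 : ℕ) : ℝ) * UU G lam z := by
        push_cast
        calc ((j / 2 : ℕ) : ℝ) * u * lam (j / 2 * u) ≤ ((j / 2 : ℕ) : ℝ) * u * lam u :=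
              mul_le_mul_of_nonneg_left h8 (by positivity)
          _ = ((j / 2 : ℕ) : ℝ) * (u * lam u) := by ring
          _ ≤ _ := mul_le_mul_of_nonneg_left h9 (by positivity)
      have h11 : ∑ q ∈ BP G x, LS w lam (j / 2 * u) q ≤
          (m : ℝ) ^ 2 * (ε * (((j / 2 : ℕ) : ℝ) * UU G lam z)) := by
        refine h6.trans (mul_le_mul_of_nonneg_left ?_ (by positivity))
        exact mul_le_mul_of_nonneg_left h10 hA.eps.le
      have h12 : (0 : ℝ) ≤ (((m - 4).choose (j - 4) : ℕ) : ℝ) * (1 / (m : ℝ)) ^ j := by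
        positivity
      calc _ ≤ (((m - 4).choose (j - 4) : ℕ) : ℝ) * (1 / (m : ℝ)) ^ j *
            ((m : ℝ) ^ 2 * (ε * (((j / 2 : ℕ) : ℝ) * UU G lam z))) :=
            mul_le_mul_of_nonneg_left (h5.trans h11) h12
        _ = _ := by ring
    · simp
  refine (sum_le_sum h3).trans ?_
  rw [← sum_mul]
  have h13 := sum_choose m hm0
  have hUU := UU_nonneg hA hz
  have h14 : 0 ≤ (m : ℝ) ^ 2 * (ε * UU G lam z) := by
    have := hA.eps
    positivity
  refine (mul_le_mul_of_nonneg_right h13 h14).trans (le_of_eq ?_)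
  field_simp

end Pool.Agent.V5helper67.EB
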