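import Pool.Agent.V5helper67.EA.Lam

open Finset

namespace Pool.Agent.V5helper67.EB

open Pool.Agent.V5helper67.EA

/-- the state of the recursion for the rates: the rate at `k` and the sum `TT` up to `k` -/
noncomputable def st (n : ℕ → ℝ) (q : ℝ) : ℕ → ℝ × ℝ
  | 0 => (2, 0)
  | k + 1 =>
    let l := min (st n q k).1 ((1 + q * (st n q k).2) / (k + 1))
    (l, (st n q k).2 + n (k + 1) * ((k + 1) * l))

/-- the rates -/
noncomputable def ll (n : ℕ → ℝ) (q : ℝ) (k : ℕ) : ℝ := (st n q k).1

theorem st_snd (n : ℕ → ℝ) (q : ℝ) (k : ℕ) : (st n q k).2 = TT n (ll n q) k := by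
  induction k with
  | zero => simp [st, TT]
  | succ k ih =>
    have h1 : TT n (ll n q) (k + 1) = TT n (ll n q) k +
        n (k + 1) * (((k + 1 : ℕ) : ℝ) * ll n q (k + 1)) := by
      unfold TT
      rw [Finset.sum_Icc_succ_top (by omega)]
    rw [h1, ← ih]
    show (st n q k).2 + n (k + 1) * (((k : ℝ) + 1) * min (st n q k).1
      ((1 + q * (st n q k).2) / (k + 1))) = _
    unfold ll
    push_cast
    rfl

theorem ll_succ (n : ℕ → ℝ) (q : ℝ) (k : ℕ) :
    ll n q (k + 1) = min (ll n q k) ((1 + q * TT n (ll n q) k) / (k + 1)) := by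
  rw [← st_snd]
  rfl

variable {n : ℕ → ℝ} {q : ℝ}

theorem ll_TT_pos (hn : ∀ v, 0 ≤ n v) (hq : 0 ≤ q) (k : ℕ) :
    0 < ll n q k ∧ 0 ≤ TT n (ll n q) k := by
  induction k with
  | zero =>
    constructor
    · show (0 : ℝ) < 2
      norm_num
    · simp [TT]
  | succ k ih =>
    have h1 : 0 < ll n q (k + 1) := by
      rw [ll_succ]
      apply lt_min ih.1
      have := mul_nonneg hq ih.2
      positivity
    refine ⟨h1, ?_⟩
    unfold TT at ih ⊢
    rw [Finset.sum_Icc_succ_top (by omega)]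
    have := hn (k + 1)
    have h2 : 0 ≤ n (k + 1) * (((k + 1 : ℕ) : ℝ) * ll n q (k + 1)) := by positivity
    linarith [ih.2]

theorem ll_anti {a b : ℕ} (h : a ≤ b) : ll n q b ≤ ll n q a := by
  induction h with
  | refl => exact le_rfl
  | step _ ih =>
    refine le_trans ?_ ih
    rw [Nat.succ_eq_add_one, ll_succ]
    exact min_le_left _ _

theorem TT_succ (lam : ℕ → ℝ) (k : ℕ) : TT n lam (k + 1) = TT n lam k +
    n (k + 1) * (((k + 1 : ℕ) : ℝ) * lam (k + 1)) := by
  unfold TT
  rw [Finset.sum_Icc_succ_top (by omega)]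

/-- growth of the sums -/
theorem grow (hn : ∀ v, 0 ≤ n v) (hq : 0 ≤ q) (k : ℕ) :
    1 + q * TT n (ll n q) k ≤ Real.exp (q * mm n 1 k) ∧
      TT n (ll n q) k ≤ mm n 1 k * Real.exp (q * mm n 1 k) := by
  induction k with
  | zero => simp [TT, mm]
  | succ k ih =>
    have hT := (ll_TT_pos hn hq k).2
    have hm0 : 0 ≤ mm n 1 k := mm_nonneg hn 1 k
    have hmm : mm n 1 (k + 1) = mm n 1 k + n (k + 1) := by
      unfold mm
      rw [Finset.sum_Icc_succ_top (by omega)]
    have hn1 := hn (k + 1)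
    have h1 : ((k + 1 : ℕ) : ℝ) * ll n q (k + 1) ≤ 1 + q * TT n (ll n q) k := by
      have h2 : ll n q (k + 1) ≤ (1 + q * TT n (ll n q) k) / (k + 1) := by
        rw [ll_succ]; exact min_le_right _ _
      rw [le_div_iff₀ (by positivity)] at h2
      push_cast
      linarith
    have h3 : TT n (ll n q) (k + 1) ≤ TT n (ll n q) k + n (k + 1) * (1 + q * TT n (ll n q) k) := by
      rw [TT_succ]
      have := mul_le_mul_of_nonneg_left h1 hn1
      linarith
    have hqn : 0 ≤ q * n (k + 1) := mul_nonneg hq hn1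
    have e1 : Real.exp (q * mm n 1 (k + 1)) =
        Real.exp (q * mm n 1 k) * Real.exp (q * n (k + 1)) := by
      rw [hmm, ← Real.exp_add]; ring_nf
    have e2 : 1 + q * n (k + 1) ≤ Real.exp (q * n (k + 1)) := by
      have := Real.add_one_le_exp (q * n (k + 1)); linarith
    have e3 : Real.exp (q * mm n 1 k) ≤ Real.exp (q * mm n 1 (k + 1)) := by
      apply Real.exp_le_exp.2
      rw [hmm]
      nlinarith
    constructor
    · calc 1 + q * TT n (ll n q) (k + 1)
          ≤ (1 + q * TT n (ll n q) k) * (1 + q * n (k + 1)) := by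
            have := mul_le_mul_of_nonneg_left h3 hq
            nlinarith
        _ ≤ Real.exp (q * mm n 1 k) * Real.exp (q * n (k + 1)) :=
            mul_le_mul ih.1 e2 (by positivity) (Real.exp_pos _).le
        _ = _ := e1.symm
    · calc TT n (ll n q) (k + 1)
          ≤ TT n (ll n q) k + n (k + 1) * (1 + q * TT n (ll n q) k) := h3
        _ ≤ mm n 1 k * Real.exp (q * mm n 1 k) + n (k + 1) * Real.exp (q * mm n 1 k) := by
            have := mul_le_mul_of_nonneg_left ih.1 hn1
            linarith [ih.2]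
        _ = (mm n 1 k + n (k + 1)) * Real.exp (q * mm n 1 k) := by ring
        _ ≤ (mm n 1 k + n (k + 1)) * Real.exp (q * mm n 1 (k + 1)) :=
            mul_le_mul_of_nonneg_left e3 (by positivity)
        _ = _ := by rw [hmm]

/-- the condition on the rates -/
theorem star (hn : ∀ v, 0 ≤ n v) (hq : 0 ≤ q) {v : ℕ} (hv : 1 ≤ v) :
    1 + q * ∑ s ∈ (Icc 1 v).filter (fun s => ll n q v < ll n q s), n s * (s * ll n q s) ≤
      v * ll n q v := by
  classical
  -- the first index of the block of `v`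
  have hex : ∃ j, ll n q j = ll n q v := ⟨v, rfl⟩
  obtain ⟨j, hj⟩ : ∃ j, j = Nat.find hex := ⟨_, rfl⟩
  have hj1 : ll n q j = ll n q v := hj ▸ Nat.find_spec hex
  have hj2 : ∀ i, i < j → ll n q v < ll n q i := by
    intro i hi
    have h1 := Nat.find_min hex (hj ▸ hi)
    have h2 : j ≤ v := hj ▸ Nat.find_le (n := v) rfl
    have h3 : ll n q v ≤ ll n q i := ll_anti (by omega)
    exact lt_of_le_of_ne h3 (Ne.symm h1)
  have hjv : j ≤ v := hj ▸ Nat.find_le (n := v) rfl
  have hn0 : ∀ s, 0 ≤ n s * (s * ll n q s) := fun s =>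
    mul_nonneg (hn s) (mul_nonneg (Nat.cast_nonneg _) (ll_TT_pos hn hq s).1.le)
  rcases Nat.eq_zero_or_pos j with h0 | h0
  · -- the rate is still the first one
    have hl1 : ll n q 1 ≤ 1 := by
      rw [ll_succ]
      refine (min_le_right _ _).trans ?_
      simp [TT]
    have h2 : ll n q v ≤ ll n q 1 := ll_anti hv
    have h3 : ll n q 0 = 2 := rfl
    rw [h0, h3] at hj1
    linarith
  · obtain ⟨i, rfl⟩ : ∃ i, j = i + 1 := ⟨j - 1, by omega⟩
    have h1 := hj2 i (by omega)
    rw [← hj1] at h1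
    have h2 : ll n q (i + 1) = (1 + q * TT n (ll n q) i) / (i + 1) := by
      rw [ll_succ] at h1 ⊢
      apply min_eq_right
      by_contra hcon
      push Not at hcon
      rw [min_eq_left hcon.le] at h1
      exact lt_irrefl _ h1
    have h3 : ∑ s ∈ (Icc 1 v).filter (fun s => ll n q v < ll n q s), n s * (s * ll n q s) ≤
        TT n (ll n q) i := by
      unfold TT
      refine sum_le_sum_of_subset_of_nonneg ?_ fun s _ _ => hn0 s
      intro s hs
      rw [mem_filter, mem_Icc] at hs
      rw [mem_Icc]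
      refine ⟨hs.1.1, ?_⟩
      by_contra hcon
      have h4 : ll n q s ≤ ll n q (i + 1) := ll_anti (by omega)
      rw [hj1] at h4
      linarith [hs.2]
    have h5 : 1 + q * TT n (ll n q) i = (i + 1) * ll n q (i + 1) := by
      rw [h2]
      have : (i : ℝ) + 1 ≠ 0 := by positivity
      field_simp
    have h6 : ((i : ℝ) + 1) * ll n q (i + 1) ≤ v * ll n q v := by
      rw [hj1]
      refine mul_le_mul_of_nonneg_right ?_ (ll_TT_pos hn hq v).1.le
      exact_mod_cast hjv
    have h7 := mul_le_mul_of_nonneg_left h3 hq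
    linarith

end Pool.Agent.V5helper67.EB
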