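import Pool.Agent.V5helper67.EB.Charge
import Pool.Agent.V5helper67.EB.Lam

open Finset
open scoped ENNReal

namespace Pool.Agent.V5helper67.EB

open Pool.Agent.Helper120.EaModel Pool.Agent.Helper120.EaJ4 Pool.Agent.V5helper67.EA

variable {V E : Type} [Finite V] [Fintype E] [DecidableEq E] {G : WGraph V E} {lam : ℕ → ℝ}

/-- **The drift of the potential.** -/
theorem drift_main (hcard : 2 ≤ Fintype.card E) {ε : ℝ} {Vm : ℕ} (hA : Adm2 G lam ε Vm)
    (hε : ε ≤ 1 / 50) {x : Finset E} (hx : G.IsSpanningTree x) :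
    1 / 5 * (1 / (Fintype.card E : ℝ)) ^ 2 * ∑ z ∈ ZZ G x, UU G lam z ≤
      ∑ F : Finset E, flipProb F * (gs G lam x - gs G lam (G.select x (symmDiff x F))) := by
  classical
  set m := Fintype.card E with hm
  have hfp := flipProb_nonneg (E := E) hcard
  have hUU : ∀ z ∈ ZZ G x, 0 ≤ UU G lam z := fun z hz => UU_nonneg hA hz
  have hS0 : 0 ≤ ∑ z ∈ ZZ G x, UU G lam z := sum_nonneg hUU
  have h1 : ∀ F : Finset E, (∑ z ∈ ZZ G x, if F = {z.1, z.2} then UU G lam z else 0) -
      HH G lam x F ≤ gs G lam x - gs G lam (G.select x (symmDiff x F)) := by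
    intro F
    have hH := HH_nonneg hA x F
    by_cases hex : ∃ z ∈ ZZ G x, F = {z.1, z.2}
    · obtain ⟨z, hz, hF⟩ := hex
      have hz' := mem_ZZ.1 hz
      have h2 : ∑ z' ∈ ZZ G x, (if F = {z'.1, z'.2} then UU G lam z' else 0) = UU G lam z := by
        rw [sum_eq_single z]
        · rw [if_pos hF]
        · intro z' hz2 hne
          rw [if_neg]
          intro hF'
          have hz3 := mem_ZZ.1 hz2
          apply hne
          rw [hF] at hF'
          have e1 : z'.1 ∈ ({z.1, z.2} : Finset E) := by rw [hF']; simp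
          have e2 : z'.2 ∈ ({z.1, z.2} : Finset E) := by rw [hF']; simp
          simp only [mem_insert, mem_singleton] at e1 e2
          have e3 : z'.1 = z.1 := by
            rcases e1 with h | h
            · exact h
            · exact absurd (h ▸ hz3.1) hz'.2.1
          have e4 : z'.2 = z.2 := by
            rcases e2 with h | h
            · exact absurd (h ▸ hz'.1) hz3.2.1
            · exact h
          exact Prod.ext e3 e4
        · exact fun h => absurd hz h
      rw [h2]
      have hsym : symmDiff x F = insert z.2 (x.erase z.1) := by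
        rw [hF]
        ext e
        simp only [mem_symmDiff, mem_insert, mem_singleton, mem_erase]
        constructor
        · rintro (⟨h3, h4⟩ | ⟨h3, h4⟩)
          · push Not at h4
            exact Or.inr ⟨h4.1, h3⟩
          · rcases h3 with h3 | h3
            · exact absurd (h3 ▸ hz'.1) h4
            · exact Or.inl h3
        · rintro (h3 | ⟨h3, h4⟩)
          · right
            exact ⟨Or.inr h3, h3 ▸ hz'.2.1⟩
          · left
            refine ⟨h4, ?_⟩
            rintro (h5 | h5)
            · exact h3 h5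
            · exact hz'.2.1 (h5 ▸ h4)
      have hwt : G.totalWeight (symmDiff x F) + G.weight z.1 =
          G.totalWeight x + G.weight z.2 := by
        rw [hsym]
        unfold WGraph.totalWeight
        rw [sum_insert (fun h => hz'.2.1 (mem_of_mem_erase h))]
        have := add_sum_erase x G.weight hz'.1
        omega
      have hsel : G.select x (symmDiff x F) = symmDiff x F := by
        unfold WGraph.select
        rw [if_pos]
        refine ⟨by rw [hsym]; exact hz'.2.2.2, ?_⟩
        have := hz'.2.2.1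
        omega
      have hgs : gs G lam (symmDiff x F) + gg G.weight lam z.1 =
          gs G lam x + gg G.weight lam z.2 := by
        rw [hsym]
        unfold gs
        rw [sum_insert (fun h => hz'.2.1 (mem_of_mem_erase h))]
        have := add_sum_erase x (fun e => gg G.weight lam e) hz'.1
        linarith
      rw [hsel]
      unfold UU
      linarith
    · push Not at hex
      have h2 : ∑ z' ∈ ZZ G x, (if F = {z'.1, z'.2} then UU G lam z' else 0) = 0 := by
        refine sum_eq_zero fun z hz => ?_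
        rw [if_neg (hex z hz)]
      rw [h2]
      unfold WGraph.select
      split_ifs with h3
      · have := HH_ge hA hx h3.1 h3.2
        linarith
      · linarith
  have h2 : ∑ F : Finset E, flipProb F * ((∑ z ∈ ZZ G x, if F = {z.1, z.2} then UU G lam z
      else 0) - HH G lam x F) ≤
      ∑ F : Finset E, flipProb F * (gs G lam x - gs G lam (G.select x (symmDiff x F))) :=
    sum_le_sum fun F _ => mul_le_mul_of_nonneg_left (h1 F) (hfp F)
  refine le_trans ?_ h2
  simp only [mul_sub, sum_sub_distrib]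
  have h3 : Real.exp (-1) * (1 / (m : ℝ)) ^ 2 * ∑ z ∈ ZZ G x, UU G lam z ≤
      ∑ F : Finset E, flipProb F * ∑ z ∈ ZZ G x, (if F = {z.1, z.2} then UU G lam z else 0) := by
    simp only [mul_sum]
    rw [sum_comm]
    refine sum_le_sum fun z hz => ?_
    have hz' := mem_ZZ.1 hz
    have a1 : z.1 ≠ z.2 := fun h => hz'.2.1 (h ▸ hz'.1)
    simp only [mul_ite, mul_zero]
    rw [sum_ite_eq' Finset.univ]
    rw [if_pos (mem_univ _)]
    exact mul_le_mul_of_nonneg_right (pair_prob hcard a1) (hUU z hz)
  have h4 := HH_sum hcard hA hx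
  have h5 : 5 / 2 * Real.exp 1 * ε * (1 / (Fintype.card E : ℝ)) ^ 2 * ∑ z ∈ ZZ G x, UU G lam z ≤
      (4 / 25) * ((1 / (m : ℝ)) ^ 2 * ∑ z ∈ ZZ G x, UU G lam z) := by
    rw [mul_assoc (5 / 2 * Real.exp 1 * ε)]
    refine mul_le_mul_of_nonneg_right ?_ (by positivity)
    have he := Real.exp_one_lt_d9
    have := Real.exp_pos 1
    have := hA.eps
    nlinarith
  have h6 : (9 / 25 : ℝ) * ((1 / (m : ℝ)) ^ 2 * ∑ z ∈ ZZ G x, UU G lam z) ≤
      Real.exp (-1) * (1 / (m : ℝ)) ^ 2 * ∑ z ∈ ZZ G x, UU G lam z := by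
    rw [mul_assoc (Real.exp (-1))]
    refine mul_le_mul_of_nonneg_right ?_ (by positivity)
    have := Real.exp_neg_one_gt_d9
    linarith
  have h7 : (1 / 5 : ℝ) * (1 / (m : ℝ)) ^ 2 * ∑ z ∈ ZZ G x, UU G lam z =
    (9 / 25 : ℝ) * ((1 / (m : ℝ)) ^ 2 * ∑ z ∈ ZZ G x, UU G lam z) -
    (4 / 25) * ((1 / (m : ℝ)) ^ 2 * ∑ z ∈ ZZ G x, UU G lam z) := by ring
  rw [h7]
  linarith

theorem phi_ge {ε : ℝ} {Vm : ℕ} (hA : Adm2 G lam ε Vm) {o x : Finset E}
    (ho : G.IsSpanningTree o) (hoo : G.totalWeight o = G.optWeight)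
    (hx : G.IsSpanningTree x) (hxo : G.totalWeight x ≠ G.optWeight) :
    1 ≤ gs G lam x - gs G lam o := by
  classical
  obtain ⟨σ, h1, h2, h3⟩ := opt_pairs ho hoo hx
  unfold gs
  rw [h2]
  have h4 : ∃ f ∈ x \ o, G.weight (σ f) < G.weight f := by
    by_contra hcon
    push Not at hcon
    apply hxo
    have h5 : ∑ f ∈ x \ o, (G.weight f - G.weight (σ f)) = 0 := by
      refine sum_eq_zero fun f hf => ?_
      have := hcon f hf
      omega
    omega
  obtain ⟨f, hf, hlt⟩ := h4
  have h5 : ∀ f ∈ x \ o, 0 ≤ gg G.weight lam f - gg G.weight lam (σ f) := by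
    intro f hf
    have := gg_mono (w := G.weight) hA.pos (h1 f hf)
    linarith
  refine le_trans ?_ (single_le_sum h5 hf)
  have h6 := hA.gain hlt.le le_rfl ((Nat.sub_le _ _).trans (hA.w_le f))
  refine le_trans ?_ h6
  exact hA.one_le _ (by omega) ((Nat.sub_le _ _).trans (hA.w_le f))

theorem phi_le_UU {ε : ℝ} {Vm : ℕ} (hA : Adm2 G lam ε Vm) {o x : Finset E}
    (ho : G.IsSpanningTree o) (hx : G.IsSpanningTree x) :
    gs G lam x - gs G lam o ≤ ∑ z ∈ ZZ G x, UU G lam z := by
  classical
  obtain ⟨σ, hσ1, hσ2, hσ3⟩ := bij_exchange hx ho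
  have h1 : gs G lam x - gs G lam o =
      ∑ f ∈ o \ x, (gg G.weight lam (σ f) - gg G.weight lam f) := by
    have := gs_diff (G := G) (lam := lam) x o
    rw [← hσ3, sum_image hσ2] at this
    rw [sum_sub_distrib]
    linarith
  rw [h1]
  have h2 : ∑ f ∈ o \ x, (gg G.weight lam (σ f) - gg G.weight lam f) ≤
      ∑ f ∈ (o \ x).filter (fun f => G.weight f < G.weight (σ f)),
        (gg G.weight lam (σ f) - gg G.weight lam f) := by
    rw [sum_filter]
    refine sum_le_sum fun f _ => ?_
    split_ifs with h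
    · exact le_rfl
    · have := gg_mono (w := G.weight) hA.pos (not_lt.1 h)
      linarith
  refine h2.trans ?_
  have hinj : Set.InjOn (fun f => (σ f, f))
      ((o \ x).filter fun f => G.weight f < G.weight (σ f) : Finset E) := by
    intro f _ f' _ h
    exact (Prod.mk.injEq _ _ _ _ ▸ h).2
  have h3 : ∑ f ∈ (o \ x).filter (fun f => G.weight f < G.weight (σ f)),
        (gg G.weight lam (σ f) - gg G.weight lam f) =
      ∑ z ∈ ((o \ x).filter (fun f => G.weight f < G.weight (σ f))).image (fun f => (σ f, f)),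
        UU G lam z := by
    rw [sum_image hinj]
    rfl
  rw [h3]
  refine sum_le_sum_of_subset_of_nonneg ?_ fun z hz _ => UU_nonneg hA hz
  intro z hz
  rw [mem_image] at hz
  obtain ⟨f, hf, rfl⟩ := hz
  rw [mem_filter] at hf
  have h4 := hσ1 f hf.1
  rw [mem_ZZ]
  exact ⟨(mem_sdiff.1 h4.1).1, (mem_sdiff.1 hf.1).2, hf.2, h4.2⟩

theorem upper_core (hcard : 2 ≤ Fintype.card E) {ε : ℝ} {Vm : ℕ} (hA : Adm2 G lam ε Vm)
    (hε : ε ≤ 1 / 50) {x0 : Finset E} (hx0 : G.IsSpanningTree x0) {B : ℝ} (hB1 : 1 ≤ B)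
    (hB : Fintype.card E * TT (nn G.weight) lam Vm ≤ B) :
    G.expectedRuntime x0 ≤
      ENNReal.ofReal (5 * (Fintype.card E : ℝ) ^ 2 * (1 + Real.log B)) := by
  classical
  obtain ⟨o, ho, hoo⟩ := exists_opt hx0
  have hmR : (0 : ℝ) < Fintype.card E := by
    have : 0 < Fintype.card E := by omega
    exact_mod_cast this
  have hδ : (0 : ℝ) < 1 / 5 * (1 / (Fintype.card E : ℝ)) ^ 2 := by positivity
  have h := mult_drift hcard G x0 hx0 (fun x => gs G lam x - gs G lam o)
    (1 / 5 * (1 / (Fintype.card E : ℝ)) ^ 2) hδ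
    (fun x hx hxo => phi_opt ho hoo hx hxo)
    (fun x hx hxo => phi_ge hA ho hoo hx hxo)
    (by
      intro x hx hxo
      have h1 := drift_main hcard hA hε hx
      have h2 := phi_le_UU hA ho hx
      have h3 : ∑ F : Finset E, flipProb F * (gs G lam (G.select x (symmDiff x F)) -
          gs G lam o) = (gs G lam x - gs G lam o) -
          ∑ F : Finset E, flipProb F * (gs G lam x - gs G lam (G.select x (symmDiff x F))) := by
        have h4 : ∀ F : Finset E, flipProb F * (gs G lam (G.select x (symmDiff x F)) -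
          gs G lam o) = flipProb F * (gs G lam x - gs G lam o) -
            flipProb F * (gs G lam x - gs G lam (G.select x (symmDiff x F))) := by
          intro F; ring
        rw [sum_congr rfl fun F _ => h4 F, sum_sub_distrib, ← sum_mul, sum_flipProb hcard,
          one_mul]
      rw [h3]
      have h5 : 1 / 5 * (1 / (Fintype.card E : ℝ)) ^ 2 * (gs G lam x - gs G lam o) ≤
          1 / 5 * (1 / (Fintype.card E : ℝ)) ^ 2 * ∑ z ∈ ZZ G x, UU G lam z :=
        mul_le_mul_of_nonneg_left h2 hδ.le
      linarith) B hB1 (by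
      have hwp : ∀ e, 0 < G.weight e := G.weight_pos
      have h1 : gs G lam x0 ≤ Fintype.card E * TT (nn G.weight) lam Vm := by
        unfold gs
        have h2 : ∀ e ∈ x0, gg G.weight lam e ≤ TT (nn G.weight) lam Vm := by
          intro e _
          rw [← sum_cc (w := G.weight) hwp hA.w_le]
          unfold gg
          exact sum_le_sum_of_subset_of_nonneg (filter_subset _ _)
            fun t _ _ => cc_nonneg hA.pos t
        refine (sum_le_sum h2).trans ?_
        rw [sum_const, nsmul_eq_mul]
        refine mul_le_mul_of_nonneg_right (by exact_mod_cast card_le_univ x0) ?_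
        rw [← sum_cc (w := G.weight) hwp hA.w_le]
        exact sum_nonneg fun t _ => cc_nonneg hA.pos t
      have h2 : 0 ≤ gs G lam o := sum_nonneg fun e _ => gg_nonneg hA.pos e
      show gs G lam x0 - gs G lam o ≤ B
      linarith)
  refine h.trans (le_of_eq ?_)
  congr 1
  field_simp

end Pool.Agent.V5helper67.EB
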