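import Pool.Agent.V5helper67.EB.Exist

open Finset
open scoped ENNReal

namespace Pool.Agent.V5helper67.EB

open Pool.Agent.Helper120.EaModel Pool.Agent.Helper120.EaJ4 Pool.Agent.V5helper67.EA

section pure

variable {n : ℕ → ℝ} {q : ℝ}

/-- the partial sums `1 + q * TT` -/
noncomputable def sg (n : ℕ → ℝ) (q : ℝ) (k : ℕ) : ℝ := 1 + q * TT n (ll n q) k

theorem sg_pos (hn : ∀ v, 0 ≤ n v) (hq : 0 ≤ q) (k : ℕ) : 1 ≤ sg n q k := by
  have := mul_nonneg hq (ll_TT_pos hn hq k).2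
  unfold sg
  linarith

theorem mul_ll_le (k : ℕ) : ((k + 1 : ℕ) : ℝ) * ll n q (k + 1) ≤ sg n q k := by
  have h2 : ll n q (k + 1) ≤ (1 + q * TT n (ll n q) k) / (k + 1) := by
    rw [ll_succ]; exact min_le_right _ _
  rw [le_div_iff₀ (by positivity)] at h2
  unfold sg
  push_cast
  linarith

theorem sg_succ_le (hn : ∀ v, 0 ≤ n v) (hq : 0 ≤ q) (k : ℕ) :
    sg n q (k + 1) ≤ sg n q k * (1 + q * n (k + 1)) := by
  have h1 := mul_ll_le (n := n) (q := q) k
  have h2 : sg n q (k + 1) = sg n q k + q * (n (k + 1) * (((k + 1 : ℕ) : ℝ) * ll n q (k + 1))) := by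
    unfold sg
    rw [TT_succ]
    ring
  rw [h2]
  have h3 := mul_le_mul_of_nonneg_left (mul_le_mul_of_nonneg_left h1 (hn (k + 1))) hq
  nlinarith

theorem sg_mono (hn : ∀ v, 0 ≤ n v) (hq : 0 ≤ q) {a b : ℕ} (h : a ≤ b) :
    sg n q a ≤ sg n q b := by
  induction h with
  | refl => exact le_rfl
  | @step b _ ih =>
    refine ih.trans ?_
    have h2 : sg n q (b + 1) = sg n q b +
        q * (n (b + 1) * (((b + 1 : ℕ) : ℝ) * ll n q (b + 1))) := by
      unfold sg
      rw [TT_succ]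
      ring
    have h3 : 0 ≤ q * (n (b + 1) * (((b + 1 : ℕ) : ℝ) * ll n q (b + 1))) :=
      mul_nonneg hq (mul_nonneg (hn _) (mul_nonneg (Nat.cast_nonneg _)
        (ll_TT_pos hn hq _).1.le))
    show sg n q b ≤ sg n q (b + 1)
    linarith

/-- exponential growth over an interval -/
theorem sg_exp (hn : ∀ v, 0 ≤ n v) (hq : 0 ≤ q) {a b : ℕ} (h : a ≤ b) :
    sg n q b ≤ sg n q a * Real.exp (q * ∑ v ∈ Ioc a b, n v) := by
  induction h with
  | refl => simp
  | @step b hab ih =>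
    have h1 := sg_succ_le hn hq b
    have h2 : ∑ v ∈ Ioc a (b + 1), n v = ∑ v ∈ Ioc a b, n v + n (b + 1) := by
      rw [Finset.sum_Ioc_succ_top (by exact hab)]
    have h3 : 1 + q * n (b + 1) ≤ Real.exp (q * n (b + 1)) := by
      have := Real.add_one_le_exp (q * n (b + 1)); linarith
    have h4 : 0 ≤ 1 + q * n (b + 1) := by
      have := mul_nonneg hq (hn (b + 1)); linarith
    have hE := Real.exp_pos (q * ∑ v ∈ Ioc a b, n v)
    have hs := sg_pos hn hq a
    show sg n q (b + 1) ≤ sg n q a * Real.exp (q * ∑ v ∈ Ioc a (b + 1), n v)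
    calc sg n q (b + 1) ≤ sg n q b * (1 + q * n (b + 1)) := h1
      _ ≤ (sg n q a * Real.exp (q * ∑ v ∈ Ioc a b, n v)) * (1 + q * n (b + 1)) :=
          mul_le_mul_of_nonneg_right ih h4
      _ ≤ (sg n q a * Real.exp (q * ∑ v ∈ Ioc a b, n v)) * Real.exp (q * n (b + 1)) :=
          mul_le_mul_of_nonneg_left h3 (by positivity)
      _ = sg n q a * Real.exp (q * ∑ v ∈ Ioc a (b + 1), n v) := by
          rw [h2, mul_add, Real.exp_add]; ring

/-- growth over a scale: the gaps in `(a, b]` with `b ≤ c (a + 1)` -/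
theorem sg_scale (hn : ∀ v, 0 ≤ n v) (hq : 0 ≤ q) {a b : ℕ} (h : a ≤ b) {c : ℝ}
    (hc : (b : ℝ) ≤ c * (a + 1)) :
    sg n q b ≤ sg n q a * (1 + q * (c * ∑ v ∈ Ioc a b, n v)) := by
  have h1 : ∀ b', a ≤ b' → b' ≤ b → sg n q b' ≤
      sg n q a + q * ∑ v ∈ Ioc a b', n v * (v * ll n q (a + 1)) := by
    intro b' hab
    induction hab with
    | refl => intro _; simp
    | @step b' hab' ih =>
      intro hb
      have h2 : sg n q (b' + 1) = sg n q b' +
          q * (n (b' + 1) * (((b' + 1 : ℕ) : ℝ) * ll n q (b' + 1))) := by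
        unfold sg
        rw [TT_succ]
        ring
      have h3 : ll n q (b' + 1) ≤ ll n q (a + 1) := ll_anti (by
        have : a ≤ b' := hab'
        omega)
      have h4 := ih (by omega)
      have h5 : q * (n (b' + 1) * (((b' + 1 : ℕ) : ℝ) * ll n q (b' + 1))) ≤
          q * (n (b' + 1) * (((b' + 1 : ℕ) : ℝ) * ll n q (a + 1))) :=
        mul_le_mul_of_nonneg_left (mul_le_mul_of_nonneg_left
          (mul_le_mul_of_nonneg_left h3 (Nat.cast_nonneg _)) (hn _)) hq
      show sg n q (b' + 1) ≤ _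
      rw [Finset.sum_Ioc_succ_top (by exact hab'), mul_add, h2]
      linarith
  have h2 := h1 b h le_rfl
  have hl := (ll_TT_pos hn hq (a + 1)).1
  have h3 : ((a + 1 : ℕ) : ℝ) * ll n q (a + 1) ≤ sg n q a := mul_ll_le a
  have h4 : ∑ v ∈ Ioc a b, n v * (v * ll n q (a + 1)) ≤
      (∑ v ∈ Ioc a b, n v) * (c * sg n q a) := by
    rw [sum_mul]
    refine sum_le_sum fun v hv => ?_
    rw [mem_Ioc] at hv
    refine mul_le_mul_of_nonneg_left ?_ (hn v)
    have hc0 : 0 ≤ c := by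
      by_contra hcon
      push Not at hcon
      have h6 : c * ((a : ℝ) + 1) < 0 := mul_neg_of_neg_of_pos hcon (by positivity)
      have : (0 : ℝ) ≤ b := Nat.cast_nonneg _
      linarith
    calc (v : ℝ) * ll n q (a + 1) ≤ (c * (a + 1)) * ll n q (a + 1) := by
          refine mul_le_mul_of_nonneg_right (le_trans ?_ hc) hl.le
          exact_mod_cast hv.2
      _ = c * (((a + 1 : ℕ) : ℝ) * ll n q (a + 1)) := by push_cast; ring
      _ ≤ c * sg n q a := mul_le_mul_of_nonneg_left h3 hc0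
  have h5 := mul_le_mul_of_nonneg_left h4 hq
  calc sg n q b ≤ _ := h2
    _ ≤ sg n q a + q * ((∑ v ∈ Ioc a b, n v) * (c * sg n q a)) := by linarith
    _ = _ := by ring

/-- number of gaps in the scale `i` -/
noncomputable def ns (n : ℕ → ℝ) (M i : ℕ) : ℝ := ∑ v ∈ Ioc (M ^ i - 1) (M ^ (i + 1) - 1), n v

/-- growth over many scales -/
theorem sg_scales (hn : ∀ v, 0 ≤ n v) (hq : 0 ≤ q) {M : ℕ} (hM : 2 ≤ M) {A : ℝ}
    (hA : ∀ i, Real.log (1 + q * (M * ns n M i)) ≤ A) (I : ℕ) :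
    sg n q (M ^ I - 1) ≤ Real.exp (∑ i ∈ range I, min (q * ns n M i) A) := by
  induction I with
  | zero => simp [sg, TT]
  | succ I ih =>
    have hlt : M ^ I ≤ M ^ (I + 1) := Nat.pow_le_pow_right (by omega) (by omega)
    have hp : 0 < M ^ I := Nat.pow_pos (by omega)
    have hs := sg_pos hn hq (M ^ I - 1)
    have hns : 0 ≤ ns n M I := sum_nonneg fun v _ => hn v
    rw [sum_range_succ, Real.exp_add]
    rcases min_choice (q * ns n M I) A with h | h
    · rw [h]
      have h1 := sg_exp hn hq (show M ^ I - 1 ≤ M ^ (I + 1) - 1 by omega)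
      refine h1.trans ?_
      exact mul_le_mul_of_nonneg_right ih (Real.exp_pos _).le
    · rw [h]
      have h1 := sg_scale hn hq (show M ^ I - 1 ≤ M ^ (I + 1) - 1 by omega) (c := M) (by
        have h2 : (((M ^ I - 1 : ℕ) : ℝ) + 1) = (M : ℝ) ^ I := by
          rw [Nat.cast_sub hp]
          push_cast
          ring
        rw [h2]
        have h3 : (((M ^ (I + 1) - 1 : ℕ)) : ℝ) ≤ (M : ℝ) ^ (I + 1) := by
          have : M ^ (I + 1) - 1 ≤ M ^ (I + 1) := Nat.sub_le _ _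
          exact_mod_cast this
        refine h3.trans (le_of_eq ?_)
        rw [pow_succ]
        ring)
      have h4 : (0 : ℝ) < 1 + q * (M * ns n M I) := by positivity
      have h5 : 1 + q * (M * ns n M I) ≤ Real.exp A := by
        rw [← Real.log_le_iff_le_exp h4]
        exact hA I
      refine h1.trans ?_
      exact mul_le_mul ih h5 h4.le (Real.exp_pos _).le

theorem TT_le_sg (hn : ∀ v, 0 ≤ n v) (hq : 0 ≤ q) (k : ℕ) :
    TT n (ll n q) k ≤ mm n 1 k * sg n q k := by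
  have h1 : ∀ s ∈ Icc 1 k, n s * (s * ll n q s) ≤ n s * sg n q k := by
    intro s hs
    rw [mem_Icc] at hs
    obtain ⟨t, rfl⟩ : ∃ t, s = t + 1 := ⟨s - 1, by omega⟩
    exact mul_le_mul_of_nonneg_left ((mul_ll_le t).trans (sg_mono hn hq (by omega))) (hn _)
  refine (sum_le_sum h1).trans (le_of_eq ?_)
  rw [← sum_mul]
  rfl

end pure

end Pool.Agent.V5helper67.EB
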