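import Pool.Agent.V5helper67.EB.Scale

open Finset
open scoped ENNReal

namespace Pool.Agent.V5helper67.EB

open Pool.Agent.Helper120.EaModel Pool.Agent.Helper120.EaJ4 Pool.Agent.V5helper67.EA

section weights

variable {E : Type} [Fintype E] (w : E → ℕ)

/-- the scales of the gaps -/
def scl (M : ℕ) : Finset ℕ := (Ts w).image fun t => Nat.log M (dl w t)

/-- the number of gaps in the scale `i` -/
def gi (M i : ℕ) : ℕ := ((Ts w).filter fun t => Nat.log M (dl w t) = i).card

variable {w}

theorem ns_eq {M : ℕ} (hM : 2 ≤ M) (hw : ∀ e, 0 < w e) (i : ℕ) : ns (nn w) M i = gi w M i := by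
  classical
  unfold ns nn gi
  rw [← Nat.cast_sum]
  congr 1
  rw [Finset.card_eq_sum_card_fiberwise (f := fun t => dl w t)
    (t := Ioc (M ^ i - 1) (M ^ (i + 1) - 1))]
  · refine Finset.sum_congr rfl fun v hv => ?_
    congr 1
    ext t
    rw [mem_Ioc] at hv
    have hp : 0 < M ^ i := Nat.pow_pos (by omega)
    simp only [mem_filter]
    constructor
    · rintro ⟨h1, h2⟩
      refine ⟨⟨h1, ?_⟩, h2⟩
      rw [Nat.log_eq_iff (Or.inr ⟨by omega, by omega⟩)]
      omega
    · rintro ⟨h1, h2⟩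
      exact ⟨h1.1, h2⟩
  · intro t ht
    rw [mem_coe, mem_filter] at ht
    obtain ⟨e, _, he⟩ := mem_image.1 ht.1
    have h1 : 0 < dl w t := by
      rw [← he]; exact gp_pos (hw e)
    rw [Nat.log_eq_iff (Or.inr ⟨by omega, by omega⟩)] at ht
    rw [mem_coe, mem_Ioc]
    show M ^ i - 1 < dl w t ∧ dl w t ≤ M ^ (i + 1) - 1
    have h2 := ht.2.1
    have h3 := ht.2.2
    have hp : 0 < M ^ i := Nat.pow_pos (by omega)
    omega

theorem gi_le {M : ℕ} (i : ℕ) : gi w M i ≤ Fintype.card E :=
  (card_filter_le _ _).trans card_image_le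

end weights

variable {V E : Type} [Finite V] [Fintype E] [DecidableEq E] (G : WGraph V E)

omit [Finite V] in
/-- the rates for the bound by scales -/
theorem exists_adm_C (hcard : 2 ≤ Fintype.card E) {P : ℕ}
    (hP : ∀ x, G.IsSpanningTree x → (BP G x).card ≤ P) (hPm : P ≤ Fintype.card E ^ 2) :
    ∃ (Vm : ℕ) (lam : ℕ → ℝ), Adm2 G lam (1 / 50) Vm ∧
      Fintype.card E * TT (nn G.weight) lam Vm ≤ (Fintype.card E : ℝ) ^ 2 *
        Real.exp (∑ i ∈ scl G.weight (Fintype.card E),
          min (50 * (P / (Fintype.card E : ℝ) ^ 2) * gi G.weight (Fintype.card E) i)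
            (8 * Real.log (Fintype.card E))) := by
  classical
  obtain ⟨w, hw⟩ : ∃ w, w = G.weight := ⟨_, rfl⟩
  have hwpos : ∀ e, 0 < w e := by rw [hw]; exact G.weight_pos
  have hcard0 : 0 < Fintype.card E := by omega
  obtain ⟨m, hm⟩ : ∃ m : ℝ, m = Fintype.card E := ⟨_, rfl⟩
  have hm1 : 2 ≤ m := by rw [hm]; exact_mod_cast hcard
  have hm0 : 0 < m := by linarith
  have hlog : 0 ≤ Real.log m := Real.log_nonneg (by linarith)
  obtain ⟨q, hq⟩ : ∃ q : ℝ, q = 50 * (P / m ^ 2) := ⟨_, rfl⟩
  have hq0 : 0 ≤ q := by rw [hq]; positivity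
  have hq50 : q ≤ 50 := by
    rw [hq]
    have h1 : (P : ℝ) ≤ m ^ 2 := by rw [hm]; exact_mod_cast hPm
    have h2 : (P : ℝ) / m ^ 2 ≤ 1 := by rw [div_le_one (by positivity)]; exact h1
    linarith
  set Vm := Fintype.card E * ∑ e, w e with hVm
  have hpos : ∀ v, 0 < ll (nn w) q v := fun v => (ll_TT_pos nn_nonneg hq0 v).1
  have hA0 : ∀ v, 0 ≤ ∑ s ∈ (Icc 1 v).filter (fun s => ll (nn w) q v < ll (nn w) q s),
      nn w s * (s * ll (nn w) q s) := fun v => sum_nonneg fun s _ =>
    mul_nonneg (nn_nonneg s) (mul_nonneg (Nat.cast_nonneg _) (hpos s).le)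
  refine ⟨Vm, ll (nn w) q, ⟨hpos, fun a b h _ => ll_anti h, ?_, ?_, by norm_num, ?_, hcard0⟩, ?_⟩
  · intro v hv1 _
    have h1 := star (n := nn w) nn_nonneg hq0 hv1
    have h2 := mul_nonneg hq0 (hA0 v)
    linarith
  · intro x hx v hv1 _
    rw [← hw]
    have h1 := star (n := nn w) nn_nonneg hq0 hv1
    obtain ⟨A, hA⟩ : ∃ A, A = ∑ s ∈ (Icc 1 v).filter (fun s => ll (nn w) q v < ll (nn w) q s),
      nn w s * (s * ll (nn w) q s) := ⟨_, rfl⟩
    have h2 := hA0 v
    rw [← hA] at h1 h2
    have h3 : ∑ z ∈ BP G x, LS w (ll (nn w) q) v z ≤ (BP G x).card * A := by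
      rw [← nsmul_eq_mul]
      refine sum_le_card_nsmul _ _ _ fun z _ => ?_
      rw [hA]
      exact LS_le hpos hwpos v z
    have h4 : ((BP G x).card : ℝ) * A ≤ P * A :=
      mul_le_mul_of_nonneg_right (by exact_mod_cast hP x hx) h2
    refine h3.trans (h4.trans ?_)
    rw [← hm]
    have h5 : (P : ℝ) * A = m ^ 2 * (1 / 50 * (q * A)) := by
      rw [hq]; field_simp
    rw [h5]
    refine mul_le_mul_of_nonneg_left ?_ (by positivity)
    linarith
  · intro k e hk
    rw [← hw, hVm]
    exact Nat.mul_le_mul hk (single_le_sum (f := w) (fun _ _ => Nat.zero_le _) (mem_univ e))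
  · rw [← hw, ← hm, ← hq]
    have h1 := TT_le_sg (n := nn w) nn_nonneg hq0 Vm
    have a1 := mm_nn_le (w := w) Vm
    have a2 : ((Ts w).card : ℝ) ≤ m := by
      rw [hm]
      have : (Ts w).card ≤ Fintype.card E := Finset.card_image_le
      exact_mod_cast this
    -- the sum over all scales
    have h2 : sg (nn w) q Vm ≤ sg (nn w) q (Fintype.card E ^ (Vm + 1) - 1) := by
      apply sg_mono nn_nonneg hq0
      have h3 : Vm + 1 < 2 ^ (Vm + 1) := Nat.lt_two_pow_self
      have h4 : 2 ^ (Vm + 1) ≤ Fintype.card E ^ (Vm + 1) := Nat.pow_le_pow_left hcard _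
      omega
    have h3 := sg_scales (n := nn w) nn_nonneg hq0 hcard (A := 8 * Real.log m) (by
      intro i
      rw [ns_eq hcard hwpos]
      have h4 : (gi w (Fintype.card E) i : ℝ) ≤ m := by
        rw [hm]; exact_mod_cast gi_le i
      have h5 : 1 + q * ((Fintype.card E : ℝ) * gi w (Fintype.card E) i) ≤ m ^ 8 := by
        rw [← hm]
        have h6 : m * (gi w (Fintype.card E) i : ℝ) ≤ m * m := mul_le_mul_of_nonneg_left h4 hm0.le
        have h7 : 0 ≤ m * (gi w (Fintype.card E) i : ℝ) := by positivity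
        have h8 : q * (m * (gi w (Fintype.card E) i : ℝ)) ≤ 50 * (m * m) :=
          mul_le_mul hq50 h6 h7 (by norm_num)
        have h9 : (2 : ℝ) ^ 6 ≤ m ^ 6 := pow_le_pow_left₀ (by norm_num) hm1 6
        have h10 : m ^ 8 = m ^ 6 * (m * m) := by ring
        rw [h10]
        nlinarith
      have h6 : (0 : ℝ) < 1 + q * ((Fintype.card E : ℝ) * gi w (Fintype.card E) i) := by
        positivity
      have h7 := Real.log_le_log h6 h5
      rw [Real.log_pow] at h7
      push_cast at h7
      exact h7) (Vm + 1)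
    have h4 : ∑ i ∈ range (Vm + 1), min (q * ns (nn w) (Fintype.card E) i) (8 * Real.log m) =
        ∑ i ∈ scl w (Fintype.card E), min (q * gi w (Fintype.card E) i) (8 * Real.log m) := by
      rw [sum_congr rfl fun i _ => by rw [ns_eq hcard hwpos]]
      symm
      apply sum_subset
      · intro i hi
        unfold scl at hi
        rw [mem_image] at hi
        obtain ⟨t, ht, rfl⟩ := hi
        obtain ⟨e, _, he⟩ := mem_image.1 ht
        rw [mem_range]
        have h5 : Nat.log (Fintype.card E) (dl w t) ≤ dl w t := Nat.log_le_self _ _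
        have h6 : dl w t ≤ t := gp_le
        have h7 : w e ≤ ∑ e, w e := single_le_sum (f := w) (fun _ _ => Nat.zero_le _) (mem_univ e)
        have h8 : ∑ e, w e ≤ Vm := Nat.le_mul_of_pos_left _ hcard0
        omega
      · intro i _ hi
        have h5 : gi w (Fintype.card E) i = 0 := by
          unfold gi
          rw [card_eq_zero, filter_eq_empty_iff]
          intro t ht hcon
          apply hi
          unfold scl
          rw [mem_image]
          exact ⟨t, ht, hcon⟩
        rw [h5]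
        simp only [Nat.cast_zero, mul_zero]
        exact min_eq_left (by positivity)
    rw [h4] at h3
    have h5 : mm (nn w) 1 Vm * sg (nn w) q Vm ≤ m * Real.exp (∑ i ∈ scl w (Fintype.card E),
        min (q * gi w (Fintype.card E) i) (8 * Real.log m)) := by
      refine mul_le_mul (a1.trans a2) (h2.trans h3) ?_ hm0.le
      have := sg_pos (n := nn w) nn_nonneg hq0 Vm
      linarith
    calc m * TT (nn w) (ll (nn w) q) Vm ≤ m * (m * Real.exp (∑ i ∈ scl w (Fintype.card E),
        min (q * gi w (Fintype.card E) i) (8 * Real.log m))) :=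
          mul_le_mul_of_nonneg_left (h1.trans h5) hm0.le
      _ = _ := by ring

/-- **The bound by scales.** -/
theorem upper_C (hcard : 2 ≤ Fintype.card E) {P : ℕ}
    (hP : ∀ x, G.IsSpanningTree x → (BP G x).card ≤ P) {x0 : Finset E}
    (hx0 : G.IsSpanningTree x0) :
    G.expectedRuntime x0 ≤ ENNReal.ofReal (250 * ((Fintype.card E : ℝ) ^ 2 *
      Real.log (Fintype.card E) + ∑ i ∈ scl G.weight (Fintype.card E),
        min ((Fintype.card E : ℝ) ^ 2 * Real.log (Fintype.card E))
          (gi G.weight (Fintype.card E) i * P))) := by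
  classical
  obtain ⟨P', hP'⟩ : ∃ P', P' = min P (Fintype.card E ^ 2) := ⟨_, rfl⟩
  have hP1 : ∀ x, G.IsSpanningTree x → (BP G x).card ≤ P' := by
    intro x hx
    rw [hP']
    apply le_min (hP x hx)
    have h1 : (BP G x).card ≤ (Finset.univ : Finset (E × E)).card := card_le_card (subset_univ _)
    rw [card_univ, Fintype.card_prod, ← sq] at h1
    exact h1
  obtain ⟨Vm, lam, hA, hB⟩ := exists_adm_C G hcard hP1 (by rw [hP']; exact min_le_right _ _)
  obtain ⟨m, hm⟩ : ∃ m : ℝ, m = Fintype.card E := ⟨_, rfl⟩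
  have hm1 : 2 ≤ m := by rw [hm]; exact_mod_cast hcard
  have hm0 : 0 < m := by linarith
  have hPP : (P' : ℝ) ≤ P := by
    rw [hP']
    exact_mod_cast min_le_left _ _
  have hlog : 0 ≤ Real.log m := Real.log_nonneg (by linarith)
  obtain ⟨S, hS⟩ : ∃ S, S = ∑ i ∈ scl G.weight (Fintype.card E),
          min (50 * (P' / (Fintype.card E : ℝ) ^ 2) * gi G.weight (Fintype.card E) i)
            (8 * Real.log (Fintype.card E)) := ⟨_, rfl⟩
  have hS0 : 0 ≤ S := by
    rw [hS]
    refine sum_nonneg fun i _ => ?_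
    apply le_min (by positivity)
    rw [← hm]; positivity
  rw [← hS] at hB
  have h := upper_core hcard hA le_rfl hx0 (B := (Fintype.card E : ℝ) ^ 2 * Real.exp S) (by
      rw [← hm]
      have h1 : 1 ≤ m ^ 2 := one_le_pow₀ (by linarith)
      have h2 : 1 ≤ Real.exp S := Real.one_le_exp hS0
      nlinarith) hB
  refine h.trans (ENNReal.ofReal_le_ofReal ?_)
  rw [← hm, Real.log_mul (by positivity) (Real.exp_pos _).ne', Real.log_exp, Real.log_pow]
  have hl2 : 0.69 ≤ Real.log m := by
    have h1 := Real.log_two_gt_d9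
    have h2 : Real.log 2 ≤ Real.log m := Real.log_le_log (by norm_num) hm1
    linarith
  have hT : m ^ 2 * S ≤ 50 * ∑ i ∈ scl G.weight (Fintype.card E),
        min (m ^ 2 * Real.log m) (gi G.weight (Fintype.card E) i * P) := by
    rw [hS, mul_sum, mul_sum, ← hm]
    refine sum_le_sum fun i _ => ?_
    obtain ⟨g, hg⟩ : ∃ g : ℝ, g = gi G.weight (Fintype.card E) i := ⟨_, rfl⟩
    rw [← hg]
    have hg0 : 0 ≤ g := by rw [hg]; exact Nat.cast_nonneg _
    have hm2 : 0 < m ^ 2 := by positivity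
    rcases min_choice (m ^ 2 * Real.log m) (g * P) with h1 | h1
    · rw [h1]
      have h2 : m ^ 2 * min (50 * (P' / m ^ 2) * g) (8 * Real.log m) ≤
          m ^ 2 * (8 * Real.log m) := mul_le_mul_of_nonneg_left (min_le_right _ _) hm2.le
      have h3 : 0 ≤ m ^ 2 * Real.log m := by positivity
      linarith
    · rw [h1]
      have h2 : m ^ 2 * min (50 * (P' / m ^ 2) * g) (8 * Real.log m) ≤
          m ^ 2 * (50 * (P' / m ^ 2) * g) := mul_le_mul_of_nonneg_left (min_le_left _ _) hm2.le
      have h3 : m ^ 2 * (50 * (P' / m ^ 2) * g) = 50 * (g * P') := by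
        field_simp
      have h4 : g * P' ≤ g * P := mul_le_mul_of_nonneg_left hPP hg0
      linarith
  have e3 : m ^ 2 * 0.69 ≤ m ^ 2 * Real.log m := mul_le_mul_of_nonneg_left hl2 (by positivity)
  push_cast
  nlinarith

end Pool.Agent.V5helper67.EB
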